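import Pool.Agent.AT8.Stmts4

/-!
# Squad AT8, block F: free inertial quotients

Text: `AWC_T8.md`.  Complete proofs in the docstrings.  If the inertial quotient `E = T/C(V)` acts
freely on `V - 1` then `l(e) ≤ |E|`.
-/

open scoped BigOperators

noncomputable section

namespace Pool.Agent.PP.T8

open Pool.Agent.Helper51_AWC Pool.Agent.Helper79_WRA Pool.Agent.PP Pool.Agent.PP.KF
open Pool.Agent.PP.K9 Pool.Agent.PP.K9.H97 Pool.Agent.PP.H75 Pool.Agent.PP.T3 Pool.Agent.PP.T2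

attribute [local instance] Ideal.Quotient.field

section defs

variable {G : Type} [Group G] (M : Ideal (integralClosure ℤ ℂ)) [M.IsMaximal]

/-- the difference of the coefficients at `lam` and at the trivial character of the function
`v ↦ ε(v) vv(v) χ` -/
def cl (V : Subgroup G) (b : G → G → FF M) (d : G → ℕ) (ε : G → ℤ) (lam : V →* ℂ) (χ : G → ℂ) :
    ℂ :=
  (Nat.card V : ℂ)⁻¹ * ∑ᶠ v : V, (ε v : ℂ) * vv M b d v χ * (lam v⁻¹ - 1)

/-- `mu` is the conjugate of `lam` by `t` -/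
def Tc (V : Subgroup G) (t : G) (lam mu : V →* ℂ) : Prop :=
  ∀ v w : V, (w : G) = t * v * t⁻¹ → mu v = lam w

end defs

/-- FNI: integrality.

Proof.  All `v ∈ V - 1` are regular (`Fr`).  `f` from COH for `χ`: `cl lam χ = a_lam(f) - a_1(f)`
(the term `v = 1` is `0`), so it is in `RM M`.  Let `|V| = ℓ ^ A`, `A > 0` (otherwise `cl = 0`),
`ζ` of order `ℓ ^ A`.  INR (`q = ℓ ^ A`), DPW: `vv(v ^ j) χ = ∑_i m_{v,i} ζ ^ (i j)` for `j` prime to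
`ℓ`, `lam(v) = ζ ^ (k_v)`.  So `|V| cl lam χ = P(ζ)`, `P(T) = ∑_v ε(v) (∑_i m_{v,i} T ^ i)
(T ^ (n_v) - 1)` with integers `m_{v,i}` and `n_v ≥ 0`, `ζ ^ (n_v) = lam(v⁻¹)`, the sum over
`v ≠ 1`, and for `j` prime to `ℓ`: `P(ζ ^ j) = ∑_v ε(v) vv(v ^ j) χ (lam(v ^ (-j)) - 1) = P(ζ)`
(`ε(v ^ j) = ε(v)`, `v ↦ v ^ j` is a bijection of `V - 1`).  So `φ(ℓ ^ A) P(ζ) = ∑_j P(ζ ^ j)` is a
rational integer (the sums `∑_j ζ ^ (i j)` over the `j` prime to `ℓ` are), `P(ζ)` is rational and an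
algebraic integer, so an integer `n`, and `n/|V| ∈ RM M` gives `|V| ∣ n` (otherwise `1/ℓ ∈ RM M`). -/
def FniStmt : Prop := ∀ (ℓ : ℕ) [Fact ℓ.Prime] (M : Ideal (integralClosure ℤ ℂ)) [M.IsMaximal],
  (ℓ : integralClosure ℤ ℂ) ∈ M → ℓ ≠ 2 → ∀ (G : Type) [Group G] [Finite G] (N : ℕ), GS G ℓ N →
  ∀ (e : G → FF M) (V : Subgroup G) (γ : G → FF M) (b : G → G → FF M) (d : G → ℕ) (c : ℕ)
  (ε : G → ℤ), Dat M ℓ e V γ b d c ε → Fr V γ → ∀ χ ∈ Irr G, ∀ lam : V →* ℂ,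
    ∃ n : ℤ, cl M V b d ε lam χ = n

/-- FNZ: conjugation and non vanishing.

Proof.  (i) `v ↦ t v t⁻¹` is a bijection of `V`, `ε`, `vv` are constant on the orbits (DPW) (the term
`v = 1` is `0`).  (ii) For `v ≠ 1` Fourier inversion gives
`∑_lam cl lam χ lam(v) = ε(v) vv(v) χ` (the sum of `lam(v)` over all `lam` is `0`; the number
`∑_lam lam(w⁻¹) lam(v)` is `|V|` for `w = v` and `0` otherwise), and `vv(v) χ ≠ 0` for `χ ∈ e` (DCG and
`K9.InxStmt`; `v` is regular); `cl` of the trivial character is `0`.  (iii) `vv(v) χ = 0` for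
`χ ∉ e` (SMG). -/
def FnzStmt : Prop := ∀ (ℓ : ℕ) [Fact ℓ.Prime] (M : Ideal (integralClosure ℤ ℂ)) [M.IsMaximal],
  (ℓ : integralClosure ℤ ℂ) ∈ M → ℓ ≠ 2 → ∀ (G : Type) [Group G] [Finite G] (e : G → FF M)
  (V : Subgroup G) (γ : G → FF M) (b : G → G → FF M) (d : G → ℕ) (c : ℕ) (ε : G → ℤ),
  Dat M ℓ e V γ b d c ε → Fr V γ →
  (∀ t ∈ Tg V γ, ∀ lam mu : V →* ℂ, Tc V t lam mu → ∀ χ ∈ Irr G,
    cl M V b d ε mu χ = cl M V b d ε lam χ) ∧
  (V ≠ ⊥ → ∀ χ ∈ IrrE M e, ∃ lam : V →* ℂ, (∃ v, lam v ≠ 1) ∧ cl M V b d ε lam χ ≠ 0) ∧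
  ∀ lam : V →* ℂ, ∀ χ ∈ Irr G, χ ∉ IrrE M e → cl M V b d ε lam χ = 0

/-- FGR: the Gram matrix.

Proof.  `∑_χ cl lam χ conj (cl mu χ) = |V|⁻² ∑_{u, u'} ε(u) ε(u') (∑_χ vv(u) χ conj (vv(u') χ))
(lam(u⁻¹) - 1) (mu(u') - 1)`, `u, u' ∈ V - 1`.  By DOR the inner sum is `|V|` if `u'` is in the
`T`-orbit of `u`, `0` otherwise; the orbit consists of the `t u t⁻¹`, one for each coset `t C(V)` in
`T` (`Fr`), and `ε(u') = ε(u)` there (DPW).  So the sum is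
`|V|⁻¹ ∑_{t C(V)} ∑_{u ∈ V} (lam(u⁻¹) - 1) (mu(t u t⁻¹) - 1)`, and for `lam, mu` not trivial
`|V|⁻¹ ∑_u (lam(u⁻¹) mu(t u t⁻¹) - lam(u⁻¹) - mu(t u t⁻¹) + 1)` is `1` or `2`; it is `2` iff
`lam(u) = mu(t u t⁻¹)` for all `u`, i.e. `Tc V t mu lam`.  If `lam = mu` this holds only for
`t ∈ C(V)`: if `lam(t u t⁻¹ u⁻¹) = 1` for all `u` and `t ∉ C(V)`, then, as `u ↦ t u t⁻¹ u⁻¹` is an
injective homomorphism of `V` (`Fr`), so surjective, `lam` would be trivial. -/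
def FgrStmt : Prop := ∀ (ℓ : ℕ) [Fact ℓ.Prime] (M : Ideal (integralClosure ℤ ℂ)) [M.IsMaximal],
  (ℓ : integralClosure ℤ ℂ) ∈ M → ℓ ≠ 2 → ∀ (G : Type) [Group G] [Finite G] (e : G → FF M)
  (V : Subgroup G) (γ : G → FF M) (b : G → G → FF M) (d : G → ℕ) (c : ℕ) (ε : G → ℤ),
  Dat M ℓ e V γ b d c ε → Fr V γ → ∀ lam mu : V →* ℂ, (∃ v, lam v ≠ 1) → (∃ v, mu v ≠ 1) →
  (lam = mu → ∑ᶠ χ ∈ Irr G, cl M V b d ε lam χ * starRingEnd ℂ (cl M V b d ε mu χ) =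
    1 + ix V γ) ∧
  ((∀ t ∈ Tg V γ, ¬ Tc V t mu lam) →
    ∑ᶠ χ ∈ Irr G, cl M V b d ε lam χ * starRingEnd ℂ (cl M V b d ε mu χ) = ix V γ)

/-- CMB: integral vectors with Gram matrix `1 + n J`.

Proof.  Let `m = |ι|`, `K = |κ|`.  `m = 0`: then `κ` is empty.  `m = 1`: `K ≤ ∑ c² = 1 + n`.  Let
`m ≥ 2`, `d_ij = c_i - c_j`: `|d_ij|² = 2`, so `d_ij` has exactly two entries `≠ 0`, both `±1`, and
`(d_ij, d_il) = 1` for `i, j, l` different, so the supports of `d_ij` and `d_il` have exactly one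
common element, with the same sign.  Fix `i = 1`, `S_j` the support of `d_1j`, `j ≠ 1`: different sets
with two elements, any two of them meet in one element.  Either they have a common element `a` or
`m = 4` and they are `{a,b}, {a,c}, {b,c}`; in this case, with the signs `α, β, γ` at `a, b, c`,
`|c_j|² = |c_1|²` gives `α c_1(a) + β c_1(b) = 1`, `α c_1(a) + γ c_1(c) = 1`,
`β c_1(b) + γ c_1(c) = 1`, the sum `2 (...) = 3` is impossible.  So (for all `m ≥ 2`)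
`d_1j = α δ_a + β_j δ_(b_j)`, the `b_j` different and `≠ a`.  `y = c_1 - α δ_a`,
`c_j = y - β_j δ_(b_j)`.  With `t = α y(a)`: `|c_j|² = |c_1|²` gives `β_j y(b_j) = -t`, and
`|c_1|² = |y|² + 2 t + 1`, so `|y|² = n - 2 t`.  At the `K - m` other places `y = c_i ≠ 0` for some
`i`, so `|y|² ≥ K - m + m t²`, `K ≤ m + n - 2 t - m t² ≤ m + n` (`m ≥ 2`, `t` an integer). -/
def CmbStmt : Prop := ∀ (ι κ : Type) [Fintype ι] [Fintype κ] (c : ι → κ → ℤ) (n : ℕ),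
  (∀ i, ∑ k, c i k * c i k = 1 + n) → (∀ i j, i ≠ j → ∑ k, c i k * c j k = n) →
  (∀ k, ∃ i, c i k ≠ 0) → Fintype.card κ ≤ Fintype.card ι + n

/-- FKL: the number of ordinary and of modular characters.

Proof.  Let `K = IrrE e`, `R(χ, χ') = |G|⁻¹ ∑_{s regular} χ(s) conj (χ'(s))` for `χ, χ' ∈ K`.  By
`K9.RotStmt` the multiplication with the indicator function of the regular elements preserves the
span of `K`; it is an orthogonal projection with matrix `R` in the orthonormal basis `K`, so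
`R` is a projection, its rank is its trace, which is `ln e` (`T3.LrkStmt`).  The vectors
`(vv(u_i) χ)_{χ ∈ K}` are orthogonal, not `0` (DOR, norm squared `|V|`; they vanish outside `K`,
SMG) and in the kernel of `R` or of its conjugate: `∑_{χ'} conj (χ'(s)) vv(u) χ'` is a combination
of `∑_{χ' ∈ e} χ'(s⁻¹) χ'(g)`, `g` singular, `0` by `K9.WboStmt`.  So `|ι| ≤ |K| - ln e`. -/
def FklStmt : Prop := ∀ (ℓ : ℕ) [Fact ℓ.Prime] (M : Ideal (integralClosure ℤ ℂ)) [M.IsMaximal],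
  (ℓ : integralClosure ℤ ℂ) ∈ M → ∀ (G : Type) [Group G] [Finite G] (e : G → FF M)
  (V : Subgroup G) (γ : G → FF M) (b : G → G → FF M) (d : G → ℕ) (c : ℕ) (ε : G → ℤ),
  Dat M ℓ e V γ b d c ε → ∀ (ι : Type) [Fintype ι] (u : ι → G), (∀ i, Rg V γ (u i)) →
  (∀ i j, i ≠ j → ∀ t ∈ Tg V γ, t * u i * t⁻¹ ≠ u j) →
    ln e + Fintype.card ι ≤ (IrrE M e).ncard

/-- FOR: representatives of the orbits.

Proof.  `E = T/C(V)` acts on `V - 1` (`v ↦ t v t⁻¹`) and on the set of the nontrivial homomorphisms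
`V → ℂ`, both with `|V| - 1` elements, and both actions are free: on `V - 1` by `Fr`; if
`lam(t u t⁻¹) = lam(u)` for all `u` and `t ∉ C(V)` then `lam` is trivial on the image of the
injective homomorphism `u ↦ t u t⁻¹ u⁻¹`, which is `V`.  So both have `m = (|V| - 1)/|E|` orbits;
take representatives. -/
def ForStmt : Prop := ∀ (ℓ : ℕ) [Fact ℓ.Prime] (F : Type) [Field F], GoodF ℓ F → ∀ (G : Type)
  [Group G] [Finite G] (e : G → F) (V : Subgroup G) (γ : G → F), Ld ℓ e V γ → Fr V γ →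
  ∃ (m : ℕ) (u : Fin m → G) (lam : Fin m → (V →* ℂ)),
    (∀ i, u i ∈ V ∧ u i ≠ 1) ∧ (∀ i j, i ≠ j → ∀ t ∈ Tg V γ, t * u i * t⁻¹ ≠ u j) ∧
    (∀ i, ∃ v, lam i v ≠ 1) ∧ (∀ i j, i ≠ j → ∀ t ∈ Tg V γ, ¬ Tc V t (lam i) (lam j)) ∧
    ∀ mu : V →* ℂ, (∃ v, mu v ≠ 1) → ∃ i, ∃ t ∈ Tg V γ, Tc V t (lam i) mu

/- LFR (`LfrStmt` in `Stmts4.lean`): assembly.

Proof.  `N` from `T2.Pr2Stmt`, the data from DAT, `m`, `u`, `lam` from FOR.  `c_i(χ)` is the integer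
of FNI for `lam i`, `χ ∈ IrrE e`.  By FGR (and FNZ (iii)) CMB applies with `n = ix V γ`: by FNZ (i),
(ii) for every `χ ∈ IrrE e` some `c_i(χ) ≠ 0`.  So `|IrrE e| ≤ m + ix V γ`, and by FKL (`V ≠ ⊥`, all
`u i` are regular) `ln e + m ≤ |IrrE e|`. -/

end Pool.Agent.PP.T8
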