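import Pool.Agent.AT8.Defs

/-!
# Squad AT8, part 1: idempotents and traces

Text: `AWC_T8.md`.  Complete proofs in the docstrings.  `RM M` is the local ring, `rr M` its residue
map, `eh M b` the lift of a central idempotent `b` (`KF.IdmStmt`), `chv a χ` the value of `χ` at the
element `a` of the group ring, `TrcStmt`: `∑_χ chv a χ * chv b χ` is the trace of `x ↦ a x b`.
-/

open scoped BigOperators

noncomputable section

namespace Pool.Agent.PP.T8

open Pool.Agent.Helper51_AWC Pool.Agent.Helper79_WRA Pool.Agent.PP Pool.Agent.PP.KF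
open Pool.Agent.PP.K9 Pool.Agent.PP.K9.H97 Pool.Agent.PP.H75 Pool.Agent.PP.T3 Pool.Agent.PP.T2

attribute [local instance] Ideal.Quotient.field

/-! ## 1. Idempotents -/

/-- IDP: some power of an element of the group ring over `F` is an idempotent.

Proof.  The values of `x` are algebraic over the prime field (`GoodF.tors`: every nonzero element of
`F` is a root of unity, so it generates a finite field), so they are contained in a finite subring
`K` of `F`.  All `pw x n` have values in `K`, and there are only finitely many functions `H → K`, so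
`pw x n = pw x (n + p)` for some `n, p ≥ 1`, so `pw x m = pw x (m + k p)` for all `m ≥ n`, and
`pw x (n p) * pw x (n p) = pw x (n p + n p) = pw x (n p)` (`mulF` is the multiplication of the
monoid algebra). -/
def IdpStmt : Prop := ∀ (ℓ : ℕ) (F : Type) [Field F], GoodF ℓ F → ∀ (H : Type) [Group H] [Finite H]
  (x : H → F), ∃ n : ℕ, 0 < n ∧ mulF (pw x n) (pw x n) = pw x n

/-- LFT: idempotents can be lifted.

Proof.  Choose `x' : G → ℂ` with values in `RM M` and residue `x`, of the form `s ∘ x` with a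
function `s : F → RM M`, `s 0 = 0` (`rr_surj`): so `x'` vanishes outside `C` and is invariant under
conjugation with `V`.  Let `L` be the matrix of `y ↦ x' * y` on `ℂ ^ G`, `f` its characteristic
polynomial: it is monic with coefficients in `RM M`, its roots are in `RM M` (`RM M` is integrally
closed in `ℂ`: a root `α` of a monic polynomial with coefficients `a_i`, `s a_i` algebraic integers,
`s ∉ M`, satisfies: `s α` is an algebraic integer).  The residues of the roots are the roots of the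
characteristic polynomial of the idempotent matrix `L mod M`, so they are `0` or `1`.  So `f = P Q`,
`P = ∏ (T - α)` over the roots with residue `0`, `Q` over those with residue `1`.  The differences
`α - β` are units of `RM M`, so `T - α`, `T - β` are coprime in `RM M [T]`, so `P` and `Q` are
(`IsCoprime.prod_left`, `prod_right`): `A P + B Q = 1`.  Let `i = (A P)(x')`.  `i (1 - i) =
(A B P Q)(x') = 0` (Cayley-Hamilton).  Since `x² = x`, every polynomial `h` over `F` satisfies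
`h(x) = h(0) (1 - x) + h(1) x`.  So the residue of `i` is `A̅P̅(0) (1 - x) + A̅P̅(1) x`.
If `x ≠ 1` then `1 - x ≠ 0`, `0` is an eigenvalue of `L mod M`, `P̅(0) = 0`.  If `x ≠ 0` then `1` is
an eigenvalue, `Q̅(1) = 0`, `A̅P̅(1) = 1`.  So the residue of `i` is `x` in all cases.  A polynomial in
`x'` vanishes outside `C` and is invariant under `V`. -/
def LftStmt : Prop := ∀ (M : Ideal (integralClosure ℤ ℂ)) [M.IsMaximal] (G : Type) [Group G]
  [Finite G] (V C : Subgroup G) (x : G → FF M), mulF x x = x → (∀ g, g ∉ C → x g = 0) →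
  (∀ v ∈ V, ∀ g, x (v * g * v⁻¹) = x g) →
  ∃ i : G → ℂ, Ip M V i ∧ (∀ g, g ∉ C → i g = 0) ∧ rd M i = x

/-- RK1: an idempotent at which the character `κ` does not vanish modulo `M`.

Proof.  `φ(h) = rr M (κ h)`, `φ(a) = ∑ a(h) φ(h)` for `a : H → F`.  (1) `φ(h ^ ℓ) = φ(h) ^ ℓ`: `κ(h)` is
a sum of roots of unity `ε_i`, `κ(h ^ ℓ) = ∑ ε_i ^ ℓ`, and `(∑ ε_i) ^ ℓ - ∑ ε_i ^ ℓ` is `ℓ` times an
algebraic integer.  (2) `φ(a ^ ℓ) = φ(a) ^ ℓ` (power in the group ring): `φ(a ^ ℓ)` is the sum of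
`a(h_1) ... a(h_ℓ) φ(h_1 ... h_ℓ)` over all `(h_1, ..., h_ℓ)`, invariant under cyclic rotation since
`φ` is a class function; the orbits of the not constant tuples have `ℓ` elements and contribute
`0`, so the sum is `∑_h a(h) ^ ℓ φ(h ^ ℓ) = ∑_h (a(h) φ(h)) ^ ℓ = φ(a) ^ ℓ`.  (3) So
`φ(x ^ (ℓ ^ k)) = φ(x) ^ (ℓ ^ k) ≠ 0` for all `k`.  The values of `x` are in a finite subring of `F`
(as in IDP), so `x ^ (ℓ ^ k) = x ^ (ℓ ^ (k + r))` for some `k ≥ 0`, `r ≥ 1`.  Let
`y = x ^ (ℓ ^ k)`, `q = ℓ ^ r`: `y ^ q = y`.  `T ^ q - T` is the product of the `T - α` over the `q`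
roots `α` in `F` (algebraically closed, separable).  Let `L_α` be the Lagrange polynomials,
`j_α = L_α(y)`: idempotents, and `y = ∑ α j_α` (`T - ∑ α L_α(T)` has degree `< q` and vanishes at all
the `α`, so it is `0`).  `∑ α φ(j_α) = φ(y) ≠ 0`, so `φ(j_α) ≠ 0` for some `α`. -/
def Rk1Stmt : Prop := ∀ (ℓ : ℕ) [Fact ℓ.Prime] (M : Ideal (integralClosure ℤ ℂ)) [M.IsMaximal],
  (ℓ : integralClosure ℤ ℂ) ∈ M → ∀ (H : Type) [Group H] [Finite H], ∀ κ ∈ Irr H,
  ∀ x : H → FF M, ∑ᶠ h, x h * rr M (κ h) ≠ 0 →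
  ∃ j : H → FF M, mulF j j = j ∧ ∑ᶠ h, j h * rr M (κ h) ≠ 0

/-! ## 2. Traces -/

/-- TR2: comparison of two idempotents.

Proof.  Replace `X` by `m⁻¹ ∑_{k < m} V ^ k X V ^ (m - k)` (`m` is a unit of `RM M`): it commutes
with `V` and with `U ^ ℓ`, and `∑ U ^ i X W ^ i` has the same reduction (`V` commutes with `U`,
`P₁`, `P₂`).  For an `ℓ`-th root of unity `w` put `φ_w = ∑_{i < ℓ} w ^ (-i) U ^ i X W ^ i`.  Then
`U φ_w = w φ_w U`, `V φ_w = φ_w V`, and the reduction of `φ_w` is `p - q`, `p`, `q` the reductions of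
`P₁`, `P₂` (the residue of `w` is `1`).  Let `a = p q p`, `b = q p q`.  Choose `t ∈ RM M` such that the
residue `t'` of `t` is not `0` and is different from `- μ / (1 - μ) ²` for all eigenvalues `μ ≠ 1` of
`a` and of `b` (`F` is infinite).  Then `A = a + t' (p - a)² + (1 - p)` is invertible: if `A v = 0`
then `(1 - p) v = 0`, `v = p v`, `a v + t' (1 - a)² v = 0`; `g(T) = T + t' (1 - T)²` splits over `F`,
so, if `v ≠ 0`, a root `μ` of `g` is an eigenvalue of `a`; `g(1) = 1`, so `μ ≠ 1` and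
`t' = - μ / (1 - μ)²`, a contradiction.  In the same way `B = b + t' (q - b)² + (1 - q)` is
invertible.  Let `w ≠ 1` and take block matrices (of size `2 n`)
`Φ = ((P₂ P₁, t P₂ φ_w P₂), (P₁ φ_{1/w} P₁, P₁ P₂))`,
`Ψ = ((P₁ P₂, t (P₁ - P₁ P₂ P₁)), (- (P₂ - P₂ P₁ P₂), P₂ P₁))`, `P = diag(P₁, P₂)`,
`Q = diag(P₂, P₁)`, `U' = diag(U, w U)`, `V' = diag(V, V)`.  `Q Φ P = Φ`, `P Ψ Q = Ψ`, `Φ U' = U' Φ`,
`Φ V' = V' Φ`, and the reduction of `Ψ Φ` is
`diag(a + t' (p - a)², b + t' (q - b)²)` (`a p = a`, `p q b = a p q`, `b q p = q p a`).  So the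
determinant of `Z = Ψ Φ + 1 - P` has residue `det(A) det(B) ≠ 0`.  Let `S = Z⁻¹ Ψ`.  `Z P = P Z`,
`Z (1 - P) = 1 - P`, so `S Φ = Z⁻¹ (Z - (1 - P)) = P`.  So `Φ S` is idempotent,
`Q Φ S = Φ S = Φ S Q` and its trace is the trace of `P`, which is the trace of `Q`; so the
idempotent `Q - Φ S` has trace `0`, so it is `0`.  So `tr(U' V' Q) = tr(U' V' Φ S) = tr(Φ U' V' S)
= tr(U' V' S Φ) = tr(U' V' P)`, that is
`tr(U V P₂) + w tr(U V P₁) = tr(U V P₁) + w tr(U V P₂)`, and `w ≠ 1`. -/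
def Tr2Stmt : Prop := ∀ (ℓ : ℕ) [Fact ℓ.Prime] (M : Ideal (integralClosure ℤ ℂ)) [M.IsMaximal],
  (ℓ : integralClosure ℤ ℂ) ∈ M → ∀ (n : Type) [Fintype n] [DecidableEq n]
  (P₁ P₂ U W V X : Matrix n n ℂ) (m : ℕ), 0 < m → ¬ ℓ ∣ m → (∀ i j, P₁ i j ∈ RM M) →
  (∀ i j, P₂ i j ∈ RM M) → (∀ i j, U i j ∈ RM M) → (∀ i j, W i j ∈ RM M) →
  (∀ i j, V i j ∈ RM M) → (∀ i j, X i j ∈ RM M) → P₁ * P₁ = P₁ → P₂ * P₂ = P₂ → U * W = 1 →
  V ^ m = 1 → U * P₁ = P₁ * U → U * P₂ = P₂ * U → V * P₁ = P₁ * V → V * P₂ = P₂ * V →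
  U * V = V * U → X * U ^ ℓ = U ^ ℓ * X →
  ∑ i ∈ Finset.range ℓ, U.map (rr M) ^ i * X.map (rr M) * W.map (rr M) ^ i =
    P₁.map (rr M) - P₂.map (rr M) → (U * V * P₁).trace = (U * V * P₂).trace

/-- PRJ: the values of class functions at an idempotent depend only on the values at the regular
elements.

Proof.  It is enough that the sum of `i` over the class of a singular element `g = y s`, `y ≠ 1` its
`ℓ`-part, is `0`.  It is `|C(g)|⁻¹ ∑_x i(x⁻¹ g x)`, and `∑_x i(x⁻¹ g x)` is the trace of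
`x ↦ g⁻¹ x i` on the complex group ring.  `T3.TrgStmt` with `P x = x i`, `U x = y⁻¹ x`,
`W x = y x`, `V x = s⁻¹ x`, `X` the diagonal matrix of the function `c` of `T3.CycStmt` for the
permutation `x ↦ y⁻¹ x` (no fixed points), `∑ U ^ i X W ^ i = 1`. -/
def PrjStmt : Prop := ∀ (ℓ : ℕ) [Fact ℓ.Prime] (M : Ideal (integralClosure ℤ ℂ)) [M.IsMaximal],
  (ℓ : integralClosure ℤ ℂ) ∈ M → ∀ (H : Type) [Group H] [Finite H] (i : H → ℂ),
  (∀ g, i g ∈ RM M) → mulF i i = i → ∀ th : H → ℂ, (∀ x y, th (y * x * y⁻¹) = th x) →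
  (∀ x, Reg ℓ x → th x = 0) → ∑ᶠ h, i h * th h = 0

/-- SMI: the second main theorem for idempotents.

Proof.  For `h ∈ G` let `h = h_ℓ h_r = h_r h_ℓ` (`ℓ`-part and regular part), and consider on the
complex group ring the operators `P₁ x = x i`, `P₂ x = x j`, `U x = h_ℓ⁻¹ x z`, `W x = h_ℓ x z⁻¹`,
`V x = h_r⁻¹ x`.  `i` and `j` commute with `z`.  Let `c` be the function of `T3.CycStmt` for the
permutation `x ↦ z x z⁻¹` of `G`, `i'(g) = c(g) i(g)` for `g ∉ C(z)`, `0` for `g ∈ C(z)`,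
`X x = x i'`.  `i'` commutes with `z ^ ℓ`, so `X` commutes with `U ^ ℓ`;
`U ^ k X W ^ k x = x (z ^ (-k) i' z ^ k)`, and the sum over `k < ℓ` is `x ↦ x (i - rs i)`, because
`∑_k c(z ^ k g z ^ (-k)) = 1` for `g ∉ C(z)`.  Its reduction is the reduction of `P₁ - P₂`.
`Tr2Stmt`: `x ↦ h⁻¹ x z i` and `x ↦ h⁻¹ x z j` have the same trace, that is
`∑_x i(z⁻¹ x⁻¹ h x) = ∑_x j(z⁻¹ x⁻¹ h x)` for all `h`.  Multiply with `th h` and sum over `h`:
`|G| ∑_g i(z⁻¹ g) th(g)` on the left side. -/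
def SmiStmt : Prop := ∀ (ℓ : ℕ) [Fact ℓ.Prime] (M : Ideal (integralClosure ℤ ℂ)) [M.IsMaximal],
  (ℓ : integralClosure ℤ ℂ) ∈ M → ∀ (G : Type) [Group G] [Finite G] (z : G), El ℓ z →
  ∀ i j : G → ℂ, (∀ g, i g ∈ RM M) → mulF i i = i → (∀ x, i (z * x * z⁻¹) = i x) →
  (∀ g, j g ∈ RM M) → mulF j j = j → (∀ g, g ∉ Cu z → j g = 0) →
  (∀ g ∈ Cu z, rr M (j g) = rr M (i g)) →
  ∀ th : G → ℂ, (∀ x y, th (y * x * y⁻¹) = th x) → fv i z th = fv j z th

/-- FCH: `z ↦ χ(z i)` is a character of `V`.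

Proof.  Let `ρ` afford `χ`.  `p = ∑ i(g) ρ(g)` and `q = |V|⁻¹ ∑ lam(v⁻¹) ρ(v)` are commuting
idempotent matrices, and the left side is the trace of `q p`, an idempotent, so a natural
number. -/
def FchStmt : Prop := ∀ (M : Ideal (integralClosure ℤ ℂ)) [M.IsMaximal] (G : Type) [Group G]
  [Finite G] (V : Subgroup G), (∀ a ∈ V, ∀ b ∈ V, a * b = b * a) → ∀ i : G → ℂ, Ip M V i →
  ∀ χ ∈ Irr G, ∀ lam : V →* ℂ, ∃ m : ℕ, (Nat.card V : ℂ)⁻¹ * ∑ᶠ v : V, fv i v χ * lam v⁻¹ = m

/-- GEQ: compatibility with the power map.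

Proof.  `C = C(z) = C(z ^ N)` (`N` is prime to `|G|`).  The restriction of the reduction of `i` to
`C` is an idempotent (restriction to `C(z)` is multiplicative on the elements of `F G` which commute
with `z`, because `F` has characteristic `ℓ`: `H75.br_mulF` for the group `⟨z⟩`).  LFT gives an
idempotent `j` supported on `C` over it.  SMI for `z` and for `z ^ N`:
`fv i (z ^ N) χ = ∑_{c ∈ C} j(c) χ(z ^ N c)` and `fv i z χ' = ∑_{c ∈ C} j(c) χ((z c) ^ N)`,
`χ' = (g ↦ χ(g ^ N))`.  The class function `c ↦ χ(z ^ N c) - χ((z c) ^ N)` of `C` vanishes at the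
regular elements (`(z c) ^ N = z ^ N c ^ N = z ^ N c`).  PRJ for `C`. -/
def GeqStmt : Prop := ∀ (ℓ : ℕ) [Fact ℓ.Prime] (M : Ideal (integralClosure ℤ ℂ)) [M.IsMaximal],
  (ℓ : integralClosure ℤ ℂ) ∈ M → ∀ (G : Type) [Group G] [Finite G] (N : ℕ), GS G ℓ N →
  ∀ V : Subgroup G, IsPGroup ℓ V → (∀ a ∈ V, ∀ b ∈ V, a * b = b * a) → ∀ i : G → ℂ, Ip M V i →
  ∀ χ ∈ Irr G, ∀ z ∈ V, fv i (z ^ N) χ = fv i z (fun g => χ (g ^ N))

/-! ## 3. Central characters -/

/-- OMI: the central characters at the sum of the conjugates of `i`, in `G` and in `C(V)`.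

Proof.  Let `z'(g)` be the sum of the `i(x⁻¹ g x)` over the cosets `x V` in `G`, a class function
with values in `RM M`, and `z''` the same in `C(V)`.  `chv z' χ = |G : V| chv i χ`, so the number
`|G| chv i χ / (|V| χ(1)) = chv z' χ / χ(1)` is in `RM M` with residue `res M (rd z') χ` (a sum of
values of the central character; compare `K9.OmgStmt`).  In the same way the number for `κ` is in
`RM M` with residue `res M (rd z'') κ`.  By the argument of `T3.RsvStmt` (`H50.char_uniq`)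
`res M a χ = res M (br_V a | C(V)) κ` for all class functions `a : G → F`.  `V` acts on the cosets
`x V` by left multiplication; for `g ∈ C(V)` the term `i(x⁻¹ g x)` is invariant, so modulo `M` only the
fixed points contribute (`H74.orb`, compare `K9.H97.tsm_br`): `br_V(rd z')` is the sum of the
`cj x (br_V (rd i))` over the cosets `x V` in `N(V)`.  Multiply with `γ`: for `x ∈ N(V)`,
`cj x (br_V (rd i)) = cj x (br_V (rd i)) cj x γ` (hypothesis), and `cj x γ * γ = 0` for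
`x ∉ stab γ`.  So `br_V(rd z') γ` is the sum of the `cj t (rd z'') γ` over the cosets
`t C(V)` in `Tg V γ` (the sum over the `x V` in `t C(V)` is `cj t (rd z'')`).  `res M · κ` is
multiplicative on the class functions of `C(V)`, `res M γ κ = 1`, and
`res M (cj t a) κ = res M a (κ ∘ conj t) = res M a κ`, because `κ ∘ conj t` is also in
`cj t⁻¹ γ = γ`. -/
def OmiStmt : Prop := ∀ (ℓ : ℕ) [Fact ℓ.Prime] (M : Ideal (integralClosure ℤ ℂ)) [M.IsMaximal],
  (ℓ : integralClosure ℤ ℂ) ∈ M → ∀ (G : Type) [Group G] [Finite G] (e : G → FF M)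
  (V : Subgroup G) (γ : G → FF M), Ld ℓ e V γ → ∀ i : G → ℂ, (∀ g, i g ∈ RM M) →
  (∀ v ∈ V, ∀ x, i (v * x * v⁻¹) = i x) → mulF (br V (rd M i)) γ = br V (rd M i) →
  ∀ χ ∈ IrrE M e, ∀ κ ∈ IrrE M (fun t : Subgroup.centralizer (V : Set G) => γ t),
    (Nat.card G * chv i χ / (Nat.card V * χ 1)) ∈ RM M ∧
    (Nat.card (Subgroup.centralizer (V : Set G)) *
      (∑ᶠ t : Subgroup.centralizer (V : Set G), i t * κ t) / (Nat.card V * κ 1)) ∈ RM M ∧
    rr M (Nat.card G * chv i χ / (Nat.card V * χ 1)) =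
      (ix V γ : FF M) * rr M (Nat.card (Subgroup.centralizer (V : Set G)) *
        (∑ᶠ t : Subgroup.centralizer (V : Set G), i t * κ t) / (Nat.card V * κ 1))

/-- RG1: the characters of a block of inertial index one agree at the regular elements.

Proof.  The orthonormal vectors in the proof of `T3.NibStmt` (for `x ∈ V` not central:
`χ ↦ gv (C(x)) x (c x) χ / (d x √|V|)`, for `x ∈ V` central: `χ ↦ χ(x)/√σ` on `IrrE b`) are `|V|`
vectors, they vanish outside `IrrE b` (`T3.SmgStmt`) and `IrrE b` has `|V|` elements (`T3.NilStmt`),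
so they are an orthonormal basis of the functions on `IrrE b`.  For `s` regular the vector
`(κ(s))_κ` is orthogonal to all of them except the one for `x = 1`: the inner products are
combinations of `∑_{κ ∈ b} κ(s) κ(g)`, `g` singular, which are `0` (`K9.WboStmt`; `eh` vanishes at
the singular elements).  So it is a multiple of `(κ(1))_κ`, which is constant (NIL). -/
def Rg1Stmt : Prop := ∀ (ℓ : ℕ) [Fact ℓ.Prime] (M : Ideal (integralClosure ℤ ℂ)) [M.IsMaximal],
  (ℓ : integralClosure ℤ ℂ) ∈ M → ∀ (H : Type) [Group H] [Finite H] (b : H → FF M)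
  (V : Subgroup H) (γ : H → FF M), Ld ℓ b V γ → ix V γ = 1 → ∀ κ ∈ IrrE M b, ∀ κ' ∈ IrrE M b,
  ∀ s : H, Reg ℓ s → κ s = κ' s

/-- KNZ: the characters of `γ` modulo `M`.

Proof.  Let `C = C(V)`.  `γ | C` is a block of `C` with the central defect group `V` and inertial
index one, so by RG1 all its characters agree at the regular elements, it has `|V|` characters of
degree `c` (`T3.CenStmt`), and `γ^(s) = |V| c κ(s⁻¹)/|C|` for `s` regular, `κ ∈ γ`.  The number
`q = |V| c/|C|` is in `RM M`: let `p : C → C/V`; by `CD2.PsbStmt`/`T3.PsgStmt`, `K9.PugStmt`,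
`K9.DzoStmt` the block `push p γ` has exactly one character `κ₀`, of degree `c` (`K9.PsiStmt`: its
inflation is in `γ`), and `κ₀` vanishes at the singular elements; for a Sylow `ℓ`-subgroup `P` of
`C/V`, the multiplicity of the trivial character in `κ₀ | P` is `c/|P|`, an integer, so
`q = c/|C/V|` is an integer divided by a number prime to `ℓ`.  So `γ(s) = rr q · rr κ(s⁻¹)`, and
`γ ≠ 0` vanishes at the singular elements, so `rr κ(s⁻¹) ≠ 0` for some `s`.  Last claim: let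
`g ∈ C` have the `ℓ`-part `y` and the regular part `s`.  If `y ∉ V` then `γ` vanishes on `C(y)`
(otherwise `⟨y⟩ V` would be a good subgroup of `γ` of order larger than `|V|`), so `κ(y s) = 0` for
all `κ ∈ γ` (`T3.SmgStmt`, second part, for the idempotent `b = 1` of `C(y)`).  If `y ∈ V` then
`κ(y s) = lam(y) κ(s)` with a root of unity `lam(y)` whose order is a power of `ℓ`, so its residue
is `1`, and `κ(s) = κ'(s)`. -/
def KnzStmt : Prop := ∀ (ℓ : ℕ) [Fact ℓ.Prime] (M : Ideal (integralClosure ℤ ℂ)) [M.IsMaximal],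
  (ℓ : integralClosure ℤ ℂ) ∈ M → ∀ (G : Type) [Group G] [Finite G] (e : G → FF M)
  (V : Subgroup G) (γ : G → FF M), Ld ℓ e V γ → ∀ c : ℕ,
  Dg M (fun t : Subgroup.centralizer (V : Set G) => γ t) c →
  ((Nat.card V * c : ℂ) / Nat.card (Subgroup.centralizer (V : Set G))) ∈ RM M ∧
  ∀ κ ∈ IrrE M (fun t : Subgroup.centralizer (V : Set G) => γ t),
    (∃ s, rr M (κ s) ≠ 0) ∧
    ∀ κ' ∈ IrrE M (fun t : Subgroup.centralizer (V : Set G) => γ t),
      ∀ g, rr M (κ' g) = rr M (κ g)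

end Pool.Agent.PP.T8
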