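import Pool.Agent.AT8.Stmts3
import Pool.Agent.Helper66_ML.Stmts3

/-!
# Squad AT8, part 4: regular vectors, the recursion, the theorem

Text: `AWC_T8.md`.  Complete proofs in the docstrings.
-/

open scoped BigOperators

noncomputable section

namespace Pool.Agent.PP.T8

open Pool.Agent.Helper51_AWC Pool.Agent.Helper79_WRA Pool.Agent.PP Pool.Agent.PP.KF
open Pool.Agent.PP.K9 Pool.Agent.PP.K9.H97 Pool.Agent.PP.H75 Pool.Agent.PP.T3 Pool.Agent.PP.T2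

attribute [local instance] Ideal.Quotient.field

/-! ## 12. Regular vectors -/

/-- CPR: coprime action on an abelian group.

Proof.  Let `m = |S|`, `m m' = 1` modulo `ℓ ^ a`, `π(v) = (∏_{s ∈ S} s v) ^ m'`.  `π` is a
homomorphism, `s π(v) = π(v) = π(s v)` for `s ∈ S`, and `π(v) = v ^ (m m') = v` if `v` is fixed by `S`.
If `g` normalises `S` then `g π(v) = π(g v)`.  If `s v ∈ v V ^ n` for all `s ∈ S` then
`π(v) ∈ v V ^ n`.  Last claim: let `S` act trivially on `V/V ^ ℓ`; so `π(v) ∈ v V ^ ℓ` for all `v`,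
`V = π(V) V ^ ℓ`, and by iteration `V = π(V) V ^ (ℓ ^ i)` for all `i`, so `V = π(V)` and `S` acts
trivially, `S = 1`. -/
def CprStmt : Prop := ∀ (ℓ : ℕ) [Fact ℓ.Prime] (V : Type) [CommGroup V] [Finite V] (a : ℕ),
  Monoid.exponent V = ℓ ^ a → ∀ S : Subgroup (MulAut V), ¬ ℓ ∣ Nat.card S →
  (∃ π : V →* V, (∀ v, ∀ s ∈ S, s (π v) = π v ∧ π (s v) = π v) ∧
    (∀ v, (∀ s ∈ S, s v = v) → π v = v) ∧
    (∀ g : MulAut V, (∀ s ∈ S, g * s * g⁻¹ ∈ S) → ∀ v, g (π v) = π (g v)) ∧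
    ∀ (n : ℕ) (v : V), (∀ s ∈ S, ∃ w, s v = v * w ^ n) → ∃ w, π v = v * w ^ n) ∧
  ((∀ s ∈ S, ∀ v : V, ∃ w, s v = v * w ^ ℓ) → S = ⊥)

/-- RGA: an abelian group `E` of automorphisms of order prime to `ℓ` has a regular vector on
`V/V ^ ℓ`, in addition of order `ℓ ^ a`.

Proof.  For `y : V` let `S(y) = {s ∈ E | s y ∈ y V ^ ℓ}`, a subgroup.  Choose `y` of order `ℓ ^ a` with
`|S(y)|` minimal, `S = S(y)`, and `π` from CPR for `S`; it commutes with all the elements of `E`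
(`E` is abelian).  Suppose `S ≠ 1`.  `y₁ = π(y) ∈ y V ^ ℓ` is fixed by `S`, and
`y₁ ^ (ℓ ^ (a-1)) = y ^ (ℓ ^ (a-1)) ≠ 1`.  By CPR (last claim) there are `v` and `s ∈ S` with
`s v ∉ v V ^ ℓ`; so `π(v) ∉ v V ^ ℓ` (otherwise `s v ∈ s π(v) V ^ ℓ = π(v) V ^ ℓ = v V ^ ℓ`).  Put
`w = v π(v)⁻¹ ∉ V ^ ℓ`, `π(w) = 1`, and `y' = y₁ w`.  `π(y' ^ (ℓ ^ (a-1))) = y₁ ^ (ℓ ^ (a-1)) ≠ 1`, so
`y'` has order `ℓ ^ a`.  Let `g ∈ S(y')`: `g y' ∈ y' V ^ ℓ`, apply `π`: `g y₁ ∈ y₁ V ^ ℓ` so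
`g ∈ S`, and then `g w ∈ w V ^ ℓ`.  If all `g ∈ S` were in `S(y')` then `π(w) ∈ w V ^ ℓ` (CPR), but
`π(w) = 1` and `w ∉ V ^ ℓ`.  So `|S(y')| < |S|`, a contradiction. -/
def RgaStmt : Prop := ∀ (ℓ : ℕ) [Fact ℓ.Prime] (V : Type) [CommGroup V] [Finite V] (a : ℕ),
  0 < a → Monoid.exponent V = ℓ ^ a → ∀ E : Subgroup (MulAut V), ¬ ℓ ∣ Nat.card E →
  (∀ s ∈ E, ∀ t ∈ E, s * t = t * s) →
  ∃ y : V, orderOf y = ℓ ^ a ∧ ∀ s ∈ E, ∀ v : V, s y = y * v ^ ℓ → s = 1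

/-- RGS: the same if the order of `E` is smaller than `ℓ`.

Proof.  For `s ∈ E`, `s ≠ 1`, the `y` with `s y ∈ y V ^ ℓ` form a proper subgroup of `V` (CPR, last
claim, for the group generated by `s`), with at most `|V|/ℓ` elements; the elements of order less
than `ℓ ^ a` also.  Together at most `|E| |V|/ℓ < |V|` elements. -/
def RgsStmt : Prop := ∀ (ℓ : ℕ) [Fact ℓ.Prime] (V : Type) [CommGroup V] [Finite V] (a : ℕ),
  0 < a → Monoid.exponent V = ℓ ^ a → ∀ E : Subgroup (MulAut V), Nat.card E < ℓ →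
  ∃ y : V, orderOf y = ℓ ^ a ∧ ∀ s ∈ E, ∀ v : V, s y = y * v ^ ℓ → s = 1

/-- RGB: two generators, regular vectors modulo `V ^ (ℓ ^ 2)`.

Proof.  Let `Φ = V ^ ℓ`, `|V/Φ| ≤ ℓ ^ 2`.  Choose `u` of order `ℓ ^ a`, `S = {s ∈ E | s u ∈ u Φ}`, `π`
from CPR for `S`, `u' = π(u) ∈ u Φ`, fixed by `S`, of order `ℓ ^ a`
(`u' ^ (ℓ ^ (a-1)) = u ^ (ℓ ^ (a-1))`).  If `S = 1` take `y = u'` (`v ^ (ℓ ^ 2) ∈ Φ`).  Let `S ≠ 1`,
`C` the image and `K` the kernel of `π`, `V = C × K`; `u' ∈ C`, `K ≠ 1` (`S` acts faithfully).  Since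
`|V/Φ| ≤ ℓ ^ 2` and `C`, `K ≠ 1`: `C` and `K` are cyclic, `C = ⟨u'⟩`, `K = ⟨w⟩`.  `S` stabilises `K`.
Case A: `w ^ ℓ ≠ 1`.  `y = u' w ^ ℓ`; `y ^ (ℓ ^ (a-1)) = u' ^ (ℓ ^ (a-1)) ≠ 1`.  Let `s ∈ E`,
`s y = y v ^ (ℓ ^ 2)`.  `s u ∈ s y Φ = y Φ = u Φ`, so `s ∈ S`, `s u' = u'`, `s w = w ^ μ`, and
`w ^ (ℓ (μ - 1)) = v ^ (ℓ ^ 2)`, which is the `ℓ ^ 2`-th power of an element of `K` (project to `K`).
As the order of `w` is divisible by `ℓ ^ 2`, `ℓ ∣ μ - 1`.  So `s` acts trivially on `V/Φ`, `s = 1`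
(CPR, last claim, for the group generated by `s`).
Case B: `w ^ ℓ = 1`.  `y = u' w`, `y ^ (ℓ ^ (a-1)) = u' ^ (ℓ ^ (a-1)) ≠ 1` (`a ≥ 2`).  Let `s ∈ E`,
`s y ∈ y Φ`.  `Ω = {v | v ^ (ℓ ^ (a-1)) = 1} = Φ ⟨w⟩` is stable under `E`, so all `g ∈ E` act on the
groups `Ω/Φ`, `V/Ω` of order `ℓ`, as powers.  Let `s₁ ∈ S`, `s₁ ≠ 1`: `s₁ u' = u'`, `s₁ w ∈ w ^ μ₁ Φ`,
`μ₁ ≠ 1` modulo `ℓ` (otherwise `s₁ = 1` by CPR).  The commutator `c` of `s` and `s₁` acts trivially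
on `Ω/Φ` and on `V/Ω`, so `c ^ ℓ` acts trivially on `V/Φ`, so `c ^ ℓ = 1` and `c = 1` (its order
is prime to `ℓ`).  `s u' ∈ u' ^ α w ^ β Φ`, `s w ∈ w ^ μ Φ`.  `s₁ s u' = s s₁ u' = s u'` gives
`β μ₁ = β`, `β = 0` modulo `ℓ`.  `s y ∈ y Φ` gives `α = 1`, `μ = 1`.  So `s` acts trivially on `V/Φ`,
`s = 1`. -/
def RgbStmt : Prop := ∀ (ℓ : ℕ) [Fact ℓ.Prime] (V : Type) [CommGroup V] [Finite V] (a : ℕ),
  2 ≤ a → Monoid.exponent V = ℓ ^ a → (∃ x y : V, (⊤ : Subgroup V) = Subgroup.closure {x, y}) →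
  ∀ E : Subgroup (MulAut V), ¬ ℓ ∣ Nat.card E →
  ∃ y : V, orderOf y = ℓ ^ a ∧ ∀ s ∈ E, ∀ v : V, s y = y * v ^ ℓ ^ 2 → s = 1

/-- RTR: regular elements modulo `V ^ ℓ`, modulo `V ^ (ℓ ^ 2)`.

Proof.  `V` is a commutative group, `E` the image of `T = Tg V γ` in its automorphism group
(`T ≤ N(V)`, conjugation), with kernel `C(V)`, so `|E| = ix V γ`.  (i) RGA, RGS.  If `T` acts freely:
let `y` be of order `ℓ ^ a` and `t y t⁻¹ = y v ^ ℓ`, `t ∈ T`.  `m = ix V γ` is prime to `ℓ` and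
`t ^ m ∈ C(V)`.  `y' = ∏_{i < m} t ^ i y t ^ (-i)` commutes with `t` and is in `y ^ m V ^ ℓ`.  If
`y' = 1` then `y ∈ V ^ ℓ` and `y ^ (ℓ ^ (a-1)) = 1`, a contradiction.  So `t ∈ C(V)`.  (ii) RGB. -/
def RtrStmt : Prop := ∀ (ℓ : ℕ) [Fact ℓ.Prime] (F : Type) [Field F], GoodF ℓ F → ∀ (G : Type)
  [Group G] [Finite G] (e : G → F) (V : Subgroup G) (γ : G → F), Ld ℓ e V γ → ¬ ℓ ∣ ix V γ →
  ∀ a : ℕ, Monoid.exponent V = ℓ ^ a →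
  (0 < a → Ei ℓ V γ → ∃ y, Rk ℓ a 1 V γ y) ∧
  (2 ≤ a → (∃ x y : G, V = Subgroup.closure {x, y}) → ∃ y, Rk ℓ a 2 V γ y)

/-- LFR: the bound for free inertial quotients (block F, `StmtsF.lean`, written by helper57; to be
used as a hypothesis). -/
def LfrStmt : Prop := ∀ (ℓ : ℕ) [Fact ℓ.Prime] (M : Ideal (integralClosure ℤ ℂ)) [M.IsMaximal],
  (ℓ : integralClosure ℤ ℂ) ∈ M → ℓ ≠ 2 → ∀ (G : Type) [Group G] [Finite G] (e : G → FF M)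
  (V : Subgroup G) (γ : G → FF M), Ld ℓ e V γ → V ≠ ⊥ → Fr V γ → ln e ≤ ix V γ

/-- LT8: the bound for the types of defect groups.

Proof.  `K9.InxStmt`.  If `Ta ℓ a k`: RTR gives `y` with `Rk ℓ a 1`, so also `Rk ℓ a k`
(`v ^ (ℓ ^ k)` is an `ℓ`-th power of an element of `V`); HKX and LB8.  If `Tb ℓ a`: RTR gives `y`
with `Rk ℓ a 2`; `|V/V ^ (ℓ ^ 2)| ≤ ℓ ^ 4` (two generators, exponent dividing `ℓ ^ 2`), so
`ix |V| ≤ ix ℓ ^ 4 |V ^ (ℓ ^ 2)| ≤ ℓ ^ 4 n` by XCT (`n` the number of the regular elements), and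
`4 ≤ a + 1`; LB8 with `k = 2`.  If `Tf ℓ a`: LFR (`V ≠ ⊥` as `a > 0`). -/
def Lt8Stmt : Prop := ∀ (ℓ : ℕ) [Fact ℓ.Prime] (M : Ideal (integralClosure ℤ ℂ)) [M.IsMaximal],
  (ℓ : integralClosure ℤ ℂ) ∈ M → ℓ ≠ 2 → ∀ (G : Type) [Group G] [Finite G] (e : G → FF M)
  (V : Subgroup G) (γ : G → FF M), Ld ℓ e V γ → ∀ a : ℕ, Ty8 ℓ a V γ → ln e ≤ ℓ ^ a

/-! ## 13. Quotients of defect groups -/

/-- FQT: properties of `Fq`.

Proof.  (i) Composition: `t''` is induced by `t' ∈ Tg V' γ'`, which is induced by `t ∈ Tg V γ`.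
(ii) `π(v) = g v g⁻¹`, `Tg (conjS g V) (cj g γ) = g (Tg V γ) g⁻¹`.  (iii) `π` = identity;
`Tg V γ ≤ N(V) ≤ X` (`Fs.nle`) and the inertial group in `X = N(U)` is `(Tg V γ).subgroupOf X`.
(iv) `V ≤ N(Q)` (`V` is abelian, `Q ≤ V`), `π(v) = p(n v n⁻¹)`, surjective as `n V n⁻¹ = V`. -/
def FqtStmt : Prop := ∀ (ℓ : ℕ) [Fact ℓ.Prime] (F : Type) [Field F], GoodF ℓ F → ∀ (G : Type)
  [Group G] [Finite G] (e : G → F) (V : Subgroup G) (γ : G → F), Ld ℓ e V γ →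
  (∀ (A B : Type) [Group A] [Group B] (V' : Subgroup A) (γ' : A → F) (V'' : Subgroup B)
    (γ'' : B → F), Fq V γ V' γ' → Fq V' γ' V'' γ'' → Fq V γ V'' γ'') ∧
  (∀ g : G, Fq V γ (conjS g V) (cj g γ)) ∧
  (∀ (U : Subgroup G) (f : G → F), Fs ℓ e V U γ f →
    Fq V γ (V.subgroupOf (Subgroup.normalizer (U : Set G)))
      (fun t : Subgroup.normalizer (U : Set G) => γ t)) ∧
  ∀ (Q : Subgroup G), Q ≤ V → ∀ (A : Type) [Group A] (p : Subgroup.normalizer (Q : Set G) →* A)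
    (γ' : A → F),
    Fe V Q γ p ((V.subgroupOf (Subgroup.normalizer (Q : Set G))).map p) γ' →
    Fq V γ ((V.subgroupOf (Subgroup.normalizer (Q : Set G))).map p) γ'

/-- TC8: the types are closed under quotients.

Proof.  `π : V → V'` surjective.  `V/V ^ n → V'/V' ^ n` is surjective, which gives the inequality
`sz` and the first case of `Hk`; two generators map to two generators.  `Ei`: (1) abelian: if `t'`, `s'` are induced by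
`t`, `s`, then the commutator of `t'`, `s'` acts on `π(v)` as the commutator of `t`, `s` on `v`.
(2) `ix V' γ' ≤ ix V γ`: choose for every coset of `C(V')` in `T'` an element `t'` and `t ∈ T` which
induces it; if two of them have the same coset `t C(V)`, then they act in the same way on `V'`.
(3) Let `T` act freely, `t' ∈ T'`, `v' = π(v) ≠ 1` commuting with `t'`, `t ∈ T` inducing `t'`,
`m = ix V γ`, `t ^ m ∈ C(V)`.  `v₁ = ∏_{i < m} t ^ i v t ^ (-i)` commutes with `t` and `π(v₁) = v' ^ m`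
(as `π(t v t⁻¹) = π(v)`) is not `1` (`m` is prime to `ℓ`, `V'` is an `ℓ`-group), so `v₁ ≠ 1`,
`t ∈ C(V)`, so `t'` centralises `V' = π(V)`. -/
def Tc8Stmt : Prop := ∀ (ℓ : ℕ) [Fact ℓ.Prime] (F : Type) [Field F], GoodF ℓ F → ∀ (G A : Type)
  [Group G] [Finite G] [Group A] [Finite A] (e : G → F) (V : Subgroup G) (γ : G → F)
  (f : A → F) (V' : Subgroup A) (γ' : A → F), Ld ℓ e V γ → Ld ℓ f V' γ' → ¬ ℓ ∣ ix V γ →
  ∀ a : ℕ, Ty8 ℓ a V γ → Monoid.exponent V' = ℓ ^ a → Fq V γ V' γ' → Ty8 ℓ a V' γ'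

/-- QT3: the inertial group of the blocks of `N(Q)/Q`.

Proof.  See the proof of `T3.Qt2Stmt` (`Helper43_AT3/QT2.lean`).  With the notation there: every
`t' ∈ T' = Tg V' γ'` is `c' p(x)`, `c' ∈ C_A(V')`, `x ∈ N(Q) ∩ N(V) ∩ stab γ_i`, where `γ_i` is a
block of `C(V)` under `e`, so `γ_i = cj n γ` with `n ∈ N(V)` (`K9.OrbStmt`, as in GCH).
`t = n⁻¹ x n ∈ Tg V γ`, and for `v ∈ V`:
`t' p(n v n⁻¹) t'⁻¹ = p(x n v n⁻¹ x⁻¹) = p(n t v t⁻¹ n⁻¹)`. -/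
def Qt3Stmt : Prop := ∀ (ℓ : ℕ) [Fact ℓ.Prime] (M : Ideal (integralClosure ℤ ℂ)) [M.IsMaximal],
  (ℓ : integralClosure ℤ ℂ) ∈ M → ∀ (G : Type) [Group G] [Finite G] (e : G → FF M)
  (V : Subgroup G) (γ : G → FF M), Ld ℓ e V γ → ∀ Q : Subgroup G, Q ≤ V → ∀ (A : Type)
  [Group A] [Finite A] (p : Subgroup.normalizer (Q : Set G) →* A), Function.Surjective p →
  p.ker = Q.subgroupOf (Subgroup.normalizer (Q : Set G)) → ∀ f : A → FF M, IsBlk f →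
  mulF (push p (fun t : Subgroup.normalizer (Q : Set G) => br Q e t)) f = f →
  Tp ℓ f ((V.subgroupOf (Subgroup.normalizer (Q : Set G))).map p) →
  ∃ γ' : A → FF M, Ld ℓ f ((V.subgroupOf (Subgroup.normalizer (Q : Set G))).map p) γ' ∧
    Fe V Q γ p ((V.subgroupOf (Subgroup.normalizer (Q : Set G))).map p) γ'

/-! ## 14. The recursion -/

/-- TY8: the blocks of `N(Q)/Q` which are not over a conjugate of `(U, f)`.

Proof.  As `T2.TyaStmt` (`Helper65_AT2/TYA.lean`) with QT3 instead of QT2; `Fq` by FQT (ii), (iv),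
(i). -/
def Ty8aStmt : Prop := ∀ (ℓ : ℕ) [Fact ℓ.Prime] (M : Ideal (integralClosure ℤ ℂ)) [M.IsMaximal],
  (ℓ : integralClosure ℤ ℂ) ∈ M → ∀ (G : Type) [Group G] [Finite G] (e : G → FF M)
  (V : Subgroup G) (γ : G → FF M), Ld ℓ e V γ → ∀ a : ℕ, 0 < a → Monoid.exponent V = ℓ ^ a →
  ∀ f : G → FF M, Fs ℓ e V (Uw (ℓ ^ (a - 1)) V) γ f → ∀ Q : Subgroup G, IsPGroup ℓ Q →
  ∀ (A : Type) [Group A] [Finite A] (p : Subgroup.normalizer (Q : Set G) →* A),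
  Function.Surjective p → p.ker = Q.subgroupOf (Subgroup.normalizer (Q : Set G)) →
  ∀ f₁ : A → FF M, IsBlk f₁ →
  mulF (push p (fun t : Subgroup.normalizer (Q : Set G) => br Q e t)) f₁ = f₁ →
  (∀ g : G, conjS g (Uw (ℓ ^ (a - 1)) V) ≤ Q →
    mulF (push p (fun t : Subgroup.normalizer (Q : Set G) => br Q (cj g f) t)) f₁ = 0) →
  ∃ (V' : Subgroup A) (γ' : A → FF M), Ld ℓ f₁ V' γ' ∧ Monoid.exponent V' = ℓ ^ a ∧
    Fq V γ V' γ'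

/-- TE8: as `T2.TeaStmt` (`Helper25_AT2/TEA.lean`), with TY8 and `Iq`. -/
def Te8Stmt : Prop := ∀ (ℓ : ℕ) [Fact ℓ.Prime] (M : Ideal (integralClosure ℤ ℂ)) [M.IsMaximal],
  (ℓ : integralClosure ℤ ℂ) ∈ M → ∀ (G : Type) [Group G] [Finite G] (e : G → FF M)
  (V : Subgroup G) (γ : G → FF M), Ld ℓ e V γ → ∀ a : ℕ, 0 < a → Monoid.exponent V = ℓ ^ a →
  ∀ f : G → FF M, Fs ℓ e V (Uw (ℓ ^ (a - 1)) V) γ f →
  Iq M ℓ a (Nat.card G) V γ → ∀ Q : Subgroup G, IsPGroup ℓ Q → Q ≠ ⊥ →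
  YQ ℓ e Q = YY ℓ ⊤ (push (QuotientGroup.mk' (Q.subgroupOf (Subgroup.normalizer (Q : Set G))))
    (fun t : Subgroup.normalizer (Q : Set G) => brU (Uw (ℓ ^ (a - 1)) V) Q f t))

/-- TX8: as `T2.TexStmt` (`Helper86_AT2/TEX.lean`), with QT3, `Fq` by FQT (for `X`: (ii), (iv); from
`G` to `X`: (iii); (i)). -/
def Tx8Stmt : Prop := ∀ (ℓ : ℕ) [Fact ℓ.Prime] (M : Ideal (integralClosure ℤ ℂ)) [M.IsMaximal],
  (ℓ : integralClosure ℤ ℂ) ∈ M → ∀ (G : Type) [Group G] [Finite G] (e : G → FF M)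
  (V : Subgroup G) (γ : G → FF M), Ld ℓ e V γ → ∀ a : ℕ, 0 < a → Monoid.exponent V = ℓ ^ a →
  ∀ U : Subgroup G, U = Uw (ℓ ^ (a - 1)) V → ∀ f : G → FF M, Fs ℓ e V U γ f →
  Iq M ℓ a (Nat.card G) V γ → ∀ Q : Subgroup (Subgroup.normalizer (U : Set G)),
  IsPGroup ℓ Q → Q ≠ ⊥ →
  ¬ (U.subgroupOf (Subgroup.normalizer (U : Set G)) ≤ Q ∧
    Q ≤ (Subgroup.centralizer (U : Set G)).subgroupOf (Subgroup.normalizer (U : Set G))) →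
  YQ ℓ (fun t : Subgroup.normalizer (U : Set G) => f t) Q = 0

/-- TS8: as `T2.TesStmt` (`Helper23_AT2/TES.lean`), with TE8, TX8 (and `T2.TebStmt`). -/
def Ts8Stmt : Prop := ∀ (ℓ : ℕ) [Fact ℓ.Prime] (M : Ideal (integralClosure ℤ ℂ)) [M.IsMaximal],
  (ℓ : integralClosure ℤ ℂ) ∈ M → ∀ (G : Type) [Group G] [Finite G] (e : G → FF M)
  (V : Subgroup G) (γ : G → FF M), Ld ℓ e V γ → ∀ a : ℕ, 0 < a → Monoid.exponent V = ℓ ^ a →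
  ∀ U : Subgroup G, U = Uw (ℓ ^ (a - 1)) V → ∀ f : G → FF M, Fs ℓ e V U γ f →
  Iq M ℓ a (Nat.card G) V γ →
  YY ℓ ⊤ e = (Nat.card G : ℤ) *
    ((ln e : ℤ) - (ln (fun t : Subgroup.normalizer (U : Set G) => f t) : ℤ))

/-! ## 15. The theorem -/

/-- T8A: the main theorem for block idempotents.

Proof.  Induction on `|G|`.  If `opCore ℓ G ≠ ⊥`: `YzrStmt`.  Let `opCore ℓ G = ⊥`.  `Iq` holds by
induction and TC8 (`K9.InxStmt`).  `T2.FstStmt`: `f`; TS8: `YY ⊤ e = |G| (ln e - ln f_X)`.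
`1 ≤ ln e, ln f_X ≤ ℓ ^ a` (`K9.LbdStmt`; LT8 for `G` and for `X = N(U)`, `f_X`, `V_X`: type by FQT
(iii), TC8, `V_X ≅ V`).  The rest is as in `T2.T2aStmt` (`Helper92_AT2/T2A.lean`): DVX gives
`ℓ ^ a ∣ ln e - ln f_X`. -/
def T8aStmt : Prop := ∀ (ℓ : ℕ) [Fact ℓ.Prime] (M : Ideal (integralClosure ℤ ℂ)) [M.IsMaximal],
  (ℓ : integralClosure ℤ ℂ) ∈ M → ℓ ≠ 2 → ∀ (a : ℕ) (G : Type) [Group G] [Finite G]
  (e : G → FF M) (V : Subgroup G) (γ : G → FF M), Ld ℓ e V γ → Ty8 ℓ a V γ → YY ℓ ⊤ e = 0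

/-- The inertial quotient acts freely on `D/O_ℓ(G)`: the elements of the inertial group which are
not in `C(D)` have their fixed points in `D` in `O_ℓ(G)`. -/
def Fd (ℓ : ℕ) (M : Ideal (integralClosure ℤ ℂ)) {G : Type} [Group G] [Finite G] (D : Subgroup G)
    (th : Subgroup.centralizer (D : Set G) → ℂ) : Prop :=
  ∀ t ∈ Iner M D th, ∀ v ∈ D, v ∉ opCore ℓ G → t * v = v * t →
    t ∈ Subgroup.centralizer (D : Set G)

/-- the order of the inertial quotient is less than `n` -/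
def In (M : Ideal (integralClosure ℤ ℂ)) {G : Type} [Group G] [Finite G] (D : Subgroup G)
    (th : Subgroup.centralizer (D : Set G) → ℂ) (n : ℕ) : Prop :=
  (Iner M D th).ncard < n * Nat.card (Subgroup.centralizer (D : Set G))

/-- FN8: the final theorem.

Proof.  `Z = opCore ℓ G`, `e` the block of `χ` (`H50.bid`), `f = push p e`.
`H75.altSum_central`: `|G| altSum χ = |Z|² YY ℓ ⊤ f`.  FLT: `γ` with `Ld ℓ e D γ`,
`Tg D γ = Iner M D th`.  `T2.DzaStmt`: `f` is a block, `Z ≤ D`, `D.map p` is a defect group of `f`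
(`Ld.tp`).  QT3 for `Q = Z` (`N(Z) = G`, `br_Z(e) = e`; see `Helper66_AT3/Fnt.lean` and
`Helper69_AT2/Fn3.lean` for the identification): `γ'` with `Ld ℓ f (D.map p) γ'` and `Fe`.  In the
first case `Ta ℓ a k (D.map p) γ'`, in the second case `Tb ℓ a (D.map p)`, in the third case
`Tf ℓ a (D.map p) γ'`: as in TC8, `Tg (D.map p) γ'` is abelian modulo the centraliser if `Iner` is,
and `ix (D.map p) γ' ≤ ix D γ = |Iner| / |C(D)|`.  `Fr` from `Fd`: let `t' ∈ Tg (D.map p) γ'` commute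
with `v' ≠ 1`, `v' = p(n v n⁻¹)`, `t ∈ Tg D γ` inducing `t'` (`Fe`), `m = ix D γ` (prime to `ℓ`),
`t ^ m ∈ C(D)`, `v₁ = ∏_{i < m} t ^ i v t ^ (-i)`: `t` commutes with `v₁`, and
`p(n v₁ n⁻¹) = v' ^ m ≠ 1`, so `v₁ ∉ Z` and `t ∈ C(D)`, so `t'` centralises `D.map p`.  T8A. -/
def Fn8Stmt : Prop := ∀ (ℓ : ℕ) [Fact ℓ.Prime] (M : Ideal (integralClosure ℤ ℂ)) [M.IsMaximal],
  (ℓ : integralClosure ℤ ℂ) ∈ M → ℓ ≠ 2 → ∀ (G : Type) [Group G] [Finite G],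
  opCore ℓ G ≤ Subgroup.center G → ∀ χ ∈ Irr G, ∀ D : Subgroup G, ML.IsDef ℓ M χ D →
  (∀ x ∈ D, ∀ y ∈ D, x * y = y * x) →
  ∀ th ∈ IrrBlock M (Subgroup.centralizer (D : Set G)).subtype χ,
  ∀ (A : Type) [Group A] [Finite A] (p : G →* A), Function.Surjective p → p.ker = opCore ℓ G →
  ∀ a : ℕ, Monoid.exponent (D.map p) = ℓ ^ a →
  ((∃ k : ℕ, 0 < k ∧ k ≤ a ∧
      (Nat.card (D.map p) ≤ ℓ ^ (2 * k) * Nat.card (Uw ℓ (D.map p)) ∨ In M D th ℓ ∨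
        (In M D th (ℓ ^ (2 * k)) ∧ Fd ℓ M D th)) ∧
      Nat.card (D.map p) ≤ ℓ ^ (a + k - 1) * Nat.card (Uw (ℓ ^ k) (D.map p)) ∧
      ((∀ s ∈ Iner M D th, ∀ t ∈ Iner M D th,
        s * t * s⁻¹ * t⁻¹ ∈ Subgroup.centralizer (D : Set G)) ∨ In M D th ℓ ∨ Fd ℓ M D th)) ∨
    (3 ≤ a ∧ ∃ x y : A, D.map p = Subgroup.closure {x, y}) ∨
    (0 < a ∧ Fd ℓ M D th ∧ In M D th (ℓ ^ a + 1))) → altSum ℓ M χ = 0

end Pool.Agent.PP.T8
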