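import Pool.Agent.Helper98_AT2.Asm2
import Pool.Agent.Helper25_AT8.IDP
import Pool.Agent.Helper27_AT8.LFT
import Pool.Agent.Helper53_AT8.RK1
import Pool.Agent.Helper33_AT8.TR2
import Pool.Agent.Helper62_AT8.PRJ
import Pool.Agent.Helper3_AT8.SMI
import Pool.Agent.Helper53_AT8.FCH
import Pool.Agent.Helper60_AT8.GEQ
import Pool.Agent.Helper17_AT8.OMI
import Pool.Agent.Helper72_AT8.RG1
import Pool.Agent.Helper87_AT8.KNZ
import Pool.Agent.Helper84_AT8.MIN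
import Pool.Agent.Helper84_AT8.CID
import Pool.Agent.Helper28_AT8.LCL
import Pool.Agent.Helper8_AT8.DAT
import Pool.Agent.Helper8_AT8.DPW
import Pool.Agent.Helper88_AT8.Dor
import Pool.Agent.Helper88_AT8.Dcg
import Pool.Agent.Helper14_AT8.FRY
import Pool.Agent.Helper8_AT8.ORI
import Pool.Agent.Helper2_AT8.CSQ
import Pool.Agent.Helper21_AT8.RVA
import Pool.Agent.Helper21_AT8.RVC
import Pool.Agent.Helper21_AT8.SER
import Pool.Agent.Helper10_AT8.COH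
import Pool.Agent.Helper45_AT8.NRM
import Pool.Agent.Helper99_AT8.SBS
import Pool.Agent.Helper45_AT8.RKX
import Pool.Agent.Helper20_AT8.HKX
import Pool.Agent.Helper18_AT8.HGT
import Pool.Agent.Helper95_AT8.AVB
import Pool.Agent.Helper32_AT8.AV1
import Pool.Agent.Helper39_AT8.AV2
import Pool.Agent.Helper99_AT8.AVO
import Pool.Agent.Helper45_AT8.BN8
import Pool.Agent.Helper76_AT8.LB8
import Pool.Agent.Helper92_AT8.CPR
import Pool.Agent.Helper24_AT8.RGA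
import Pool.Agent.Helper45_AT8.RGS
import Pool.Agent.Helper24_AT8.RGB
import Pool.Agent.Helper77_AT8.LT8
import Pool.Agent.Helper37_AT8.FQT
import Pool.Agent.Helper25_AT8.TC8
import Pool.Agent.Helper86_AT8.QT3
import Pool.Agent.Helper25_AT8.TY8
import Pool.Agent.Helper25_AT8.TE8
import Pool.Agent.Helper86_AT8.TX8
import Pool.Agent.Helper53_AT8.TS8
import Pool.Agent.Helper3_AT8.T8A
import Pool.Agent.Helper24_AT8.FN8
import Pool.Agent.Helper72_AT8.FNI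
import Pool.Agent.Helper68_AT8.FNZ
import Pool.Agent.Helper62_AT8.FGR
import Pool.Agent.Helper6_AT8.CMB
import Pool.Agent.Helper76_AT8.FKL
import Pool.Agent.Helper37_AT8.FOR
import Pool.Agent.Helper6_AT8.LFR
import Pool.Agent.Helper10_AT8.RTR

/-!
# Squad AT8: assembly of all the rows

`fn8_ : Fn8Stmt`.
-/

open scoped BigOperators

noncomputable section

namespace Pool.Agent.PP.T8

theorem idp_ : IdpStmt := H25.idp

theorem lft_ : LftStmt := H27.lft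

theorem rk1_ : Rk1Stmt := H53.rk1

theorem tr2_ : Tr2Stmt := H33.tr2

theorem prj_ : PrjStmt := H62.prj T3.trg_ T3.cyc_

theorem smi_ : SmiStmt := H3.smi tr2_ T3.cyc_

theorem fch_ : FchStmt := H53.fch

theorem geq_ : GeqStmt := H60.geq lft_ smi_ prj_

theorem omi_ : OmiStmt := H17.omi

theorem rg1_ : Rg1Stmt := H72.rg1 T3.loc_ T3.lsb_ T3.nil_ T3.smg_ T3.co1_ T3.co2_ T3.fus_

theorem knz_ : KnzStmt := H87.knz rg1_ T3.cen_ T3.psg_

theorem min_ : MinStmt := H84.min idp_ rk1_ knz_ T3.dgc_ KF.H25.idm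

theorem cid_ : CidStmt := H84.cid min_ lft_

theorem lcl_ : LclStmt := H28.lcl lft_ smi_ KF.H25.idm

theorem dat_ : DatStmt := H8.dat T3.rgl_ T3.dgc_ T3.lsb_ T3.nit_

theorem dpw_ : DpwStmt := H8.dpw T3.loc_ T3.lpw_

theorem dor_ : DorStmt := H88.dor T3.co1_ T3.co2_ T3.fus_ T3.loc_ T3.rgl_

theorem dcg_ : DcgStmt := H88.dcg T3.rsv_

theorem fry_ : FryStmt := H14.fry lcl_ rg1_ prj_ omi_ knz_

theorem ori_ : OriStmt := H8.ori lcl_ prj_ T3.loc_ T3.fus_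

theorem csq_ : CsqStmt := H2.csq fry_ ori_ fch_ dor_ dpw_

theorem rva_ : RvaStmt := H21.rva

theorem rvc_ : RvcStmt := H21.rvc

theorem ser_ : SerStmt := H21.ser

theorem coh_ : CohStmt := H10.coh cid_ csq_ fch_ rva_ geq_ ser_ dpw_

theorem nrm_ : NrmStmt := H45.nrm

theorem sbs_ : SbsStmt := H99.sbs dor_ dpw_ T3.smg_ K9.wbo_

theorem rkx_ : RkxStmt := H45.rkx

theorem xct_ : XctStmt := H45.xct

theorem hkx_ : HkxStmt := H20.hkx xct_

theorem hgt_ : HgtStmt := H18.hgt dcg_ dpw_ T3.inr_ nrm_ sbs_ K9.H34.inx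

theorem avb_ : AvbStmt := H95.avb T2.pwu_

theorem av1_ : Av1Stmt := H32.av1 coh_ avb_ rkx_ T2.pwu_ K9.H34.inx

theorem av2_ : Av2Stmt := H39.av2 T3.inr_ T2.vjc_ dpw_ rkx_ T2.pwu_ K9.H34.inx

theorem avo_ : AvoStmt := H99.avo dor_ rkx_ av1_ T3.bes_ T2.pwu_ K9.H34.inx

theorem bn8_ : Bn8Stmt := H45.bn8 av1_ av2_ avo_

theorem lb8_ : Lb8Stmt := H76.lb8 T2.pr2_ T2.fxs_ T2.stg_ dat_ hgt_ bn8_

theorem cpr_ : CprStmt := H92.cpr

theorem rga_ : RgaStmt := H24.rga cpr_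

theorem rgs_ : RgsStmt := H45.rgs cpr_

theorem rgb_ : RgbStmt := H24.rgb cpr_

theorem fni_ : FniStmt := H72.fni coh_ T3.inr_ dpw_ T3.lpw_

theorem fnz_ : FnzStmt := H68.fnz dpw_ dcg_ T3.smg_ K9.H34.inx

theorem fgr_ : FgrStmt := H62.fgr dor_ dpw_

theorem fkl_ : FklStmt := H76.fkl dor_ T3.lrk_ T3.smg_

theorem for__ : ForStmt := H37.for_

theorem lfr_ : LfrStmt := H6.lfr T2.pr2_ dat_ fni_ fnz_ fgr_ fkl_ for__

theorem fqt_ : FqtStmt := H37.fqt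

theorem tc8_ : Tc8Stmt := H25.tc8

theorem qt3_ : Qt3Stmt := H86.qt3 T3.psg_

theorem ty8_ : Ty8aStmt := H25.ty8 T2.pwu_ T3.qt1_ qt3_ T3.lcj_ fqt_

theorem te8_ : Te8Stmt := H25.te8 T2.ort_ ty8_

theorem tx8_ : Tx8Stmt := H86.tx8 qt3_ fqt_ T3.qt1_ T3.lcj_ T2.pwu_

theorem ts8_ : Ts8Stmt := H53.ts8 T2.pwu_ te8_ T2.teb_ tx8_

theorem rtr_ : RtrStmt := H10.rtr rga_ rgs_ rgb_

theorem lt8_ : Lt8Stmt := H77.lt8 rtr_ hkx_ lb8_ xct_ lfr_

theorem t8a_ : T8aStmt := H3.t8a tc8_ fqt_ T2.fst_ ts8_ lt8_ T2.dvx_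

theorem fn8_ : Fn8Stmt := H24.fn8 T3.flt_ T2.dza_ qt3_ K9.H34.inx t8a_

end Pool.Agent.PP.T8
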