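import Pool.Agent.AT2.Stmts

/-!
# Squad AT8: Alperin's weight conjecture for abelian defect groups of large exponent: definitions

Text: `AWC_T8.md` (note 2689).  Everything on top of squads AT3 (`Pool.Agent.PP.T3`) and AT2
(`Pool.Agent.PP.T2`).
-/

open scoped BigOperators

noncomputable section

namespace Pool.Agent.PP.T8

open Pool.Agent.Helper51_AWC Pool.Agent.Helper79_WRA Pool.Agent.PP Pool.Agent.PP.KF
open Pool.Agent.PP.K9 Pool.Agent.PP.K9.H97 Pool.Agent.PP.H75 Pool.Agent.PP.T3 Pool.Agent.PP.T2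

attribute [local instance] Ideal.Quotient.field

section defs

variable {G : Type} [Group G]

open Classical in
/-- restriction to the subgroup `C`, extended by zero -/
def rs {F : Type} [Zero F] (C : Subgroup G) (a : G → F) : G → F := fun x => if x ∈ C then a x else 0

open Classical in
/-- the powers in the group ring -/
def pw {F : Type} [Field F] (x : G → F) : ℕ → G → F
  | 0 => fun g => if g = 1 then 1 else 0
  | n + 1 => mulF x (pw x n)

/-- `χ(z i)`, `i` in the group ring -/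
def fv (i : G → ℂ) (z : G) (χ : G → ℂ) : ℂ := ∑ᶠ g, i g * χ (z * g)

/-- the sum of the `χ(t z t⁻¹ i)` over the cosets `t C(V)` in `T` -/
def fs {F : Type} [Field F] (V : Subgroup G) (γ : G → F) (i : G → ℂ) (z : G) (χ : G → ℂ) : ℂ :=
  ∑ᶠ q : Tg V γ ⧸ (Subgroup.centralizer (V : Set G)).subgroupOf (Tg V γ),
    fv i ((q.out : G) * z * (q.out : G)⁻¹) χ

/-- the sum of `(F_χ, 1) F_χ(z)` over all `χ`, `F_χ(z) = fs V γ i z χ` -/
def cc {F : Type} [Field F] (V : Subgroup G) (γ : G → F) (i : G → ℂ) (z : G) : ℂ :=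
  ∑ᶠ χ ∈ Irr G, ((Nat.card V : ℂ)⁻¹ * ∑ᶠ v : V, fs V γ i v χ) * fs V γ i z χ

variable (M : Ideal (integralClosure ℤ ℂ)) [M.IsMaximal]

/-- the reduction of a function with values in the local ring -/
def rd (i : G → ℂ) : G → FF M := fun g => rr M (i g)

/-- `i` is an idempotent of the group ring over the local ring which commutes with `V`. -/
structure Ip (V : Subgroup G) (i : G → ℂ) : Prop where
  rm : ∀ g, i g ∈ RM M
  id : mulF i i = i
  iv : ∀ v ∈ V, ∀ x, i (v * x * v⁻¹) = i x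

/-- `i` is a coherent idempotent: its Brauer images at `V` and at the elements `z` of `V` are under
`γ` and under the local blocks, and the characters of `γ` do not vanish modulo `M` at the image. -/
structure Ci (e : G → FF M) (V : Subgroup G) (γ : G → FF M) (i : G → ℂ) : Prop where
  ip : Ip M V i
  gm : mulF (br V (rd M i)) γ = br V (rd M i)
  lb : ∀ z ∈ V, ∀ b, Lc e V γ z b → mulF (rs (Cu z) (rd M i)) b = rs (Cu z) (rd M i)
  nz : ∀ κ ∈ IrrE M (fun t : Subgroup.centralizer (V : Set G) => γ t),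
    rr M (∑ᶠ t : Subgroup.centralizer (V : Set G), i t * κ t) ≠ 0

/-- `f` is, on `V`, a combination of the linear characters of `V` with coefficients in the local
ring. -/
def Rv (V : Subgroup G) (f : G → ℂ) : Prop :=
  ∀ lam : V →* ℂ, (Nat.card V : ℂ)⁻¹ * ∑ᶠ v : V, f v * lam v⁻¹ ∈ RM M

/-- `χ(u b_u)/d_u` -/
def vv (b : G → G → FF M) (d : G → ℕ) (u : G) (χ : G → ℂ) : ℂ := gv M (Cu u) u (b u) χ / d u

/-- The data of the regular elements: `b u` the local block of `u`, all its characters have degree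
`d u`, all characters of `γ` have degree `c`, and `ε u` is the sign of `|C(u)| c / (|C(V)| d u)`. -/
structure Dat (ℓ : ℕ) (e : G → FF M) (V : Subgroup G) (γ : G → FF M) (b : G → G → FF M)
    (d : G → ℕ) (c : ℕ) (ε : G → ℤ) : Prop where
  ld : Ld ℓ e V γ
  dc : Dg M (fun t : Subgroup.centralizer (V : Set G) => γ t) c
  lc : ∀ u, Rg V γ u → Lc e V γ u (b u)
  dg : ∀ u, Rg V γ u → Dg M (fun t : Cu u => b u t) (d u)
  sg : ∀ u, Rg V γ u → ε u = 1 ∨ ε u = -1
  cg : ∀ u, Rg V γ u → ((Nat.card (Cu u) * c : ℂ) /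
      (Nat.card (Subgroup.centralizer (V : Set G)) * d u)) ∈ RM M ∧
    rr M ((Nat.card (Cu u) * c : ℂ) /
      (Nat.card (Subgroup.centralizer (V : Set G)) * d u)) = (ε u : FF M)

/-- the average of the numbers `ε(y w) χ(y w b)/d` over `w ∈ W` -/
def av (b : G → G → FF M) (d : G → ℕ) (ε : G → ℤ) (W : Subgroup G) (y : G) (χ : G → ℂ) : ℂ :=
  (Nat.card W : ℂ)⁻¹ * ∑ᶠ w : W, (ε (y * w) : ℂ) * vv M b d (y * w) χ

/-- `y` is an element of `V` of order `ℓ ^ a`, and the coset of `y` modulo the `ℓ ^ k`-th powers is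
fixed only by `C(V)`. -/
structure Rk {F : Type} (ℓ a k : ℕ) (V : Subgroup G) (γ : G → F) (y : G) : Prop where
  mem : y ∈ V
  ord : orderOf y = ℓ ^ a
  reg : ∀ t ∈ Tg V γ, ∀ v ∈ V, t * y * t⁻¹ = y * v ^ ℓ ^ k →
    t ∈ Subgroup.centralizer (V : Set G)

/-- `V'` is a quotient of `V`, and the elements of the inertial group of `(V', γ')` act on it as
elements of the inertial group of `(V, γ)`. -/
def Fq {F F' A : Type} [Group A] (V : Subgroup G) (γ : G → F) (V' : Subgroup A) (γ' : A → F') :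
    Prop :=
  ∃ π : V →* V', Function.Surjective π ∧ ∀ t' ∈ Tg V' γ', ∃ t ∈ Tg V γ, ∀ v w : V,
    (w : G) = t * v * t⁻¹ → (π w : A) = t' * π v * t'⁻¹

/-- The explicit form of `Fq` for the image `V'` of `V` in `N(Q)/Q`. -/
def Fe {F F' A : Type} [Group A] (V Q : Subgroup G) (γ : G → F)
    (p : Subgroup.normalizer (Q : Set G) →* A) (V' : Subgroup A) (γ' : A → F') : Prop :=
  ∃ n ∈ Subgroup.normalizer (V : Set G), ∀ t' ∈ Tg V' γ', ∃ t ∈ Tg V γ, ∀ v ∈ V,
    ∀ x y : Subgroup.normalizer (Q : Set G), (x : G) = n * v * n⁻¹ →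
      (y : G) = n * (t * v * t⁻¹) * n⁻¹ → p y = t' * p x * t'⁻¹

/-- The hypothesis of the induction: the alternating sum is zero for all the blocks of groups of
order less than `n` whose defect group has exponent `ℓ ^ a` and is a quotient of `V` in the sense
of `Fq`. -/
def Iq (ℓ a n : ℕ) (V : Subgroup G) (γ : G → FF M) : Prop :=
  ∀ (A : Type) [Group A] [Finite A], Nat.card A < n → ∀ (f : A → FF M) (V' : Subgroup A)
    (γ' : A → FF M), Ld ℓ f V' γ' → Monoid.exponent V' = ℓ ^ a → Fq V γ V' γ' → YY ℓ ⊤ f = 0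

/-- the inertial quotient acts freely on `V - 1` -/
def Fr {F : Type} (V : Subgroup G) (γ : G → F) : Prop :=
  ∀ t ∈ Tg V γ, ∀ v ∈ V, v ≠ 1 → t * v = v * t → t ∈ Subgroup.centralizer (V : Set G)

/-- the inertial quotient is abelian, or its order is less than `ℓ`, or it acts freely on
`V - 1` -/
def Ei {F : Type} (ℓ : ℕ) (V : Subgroup G) (γ : G → F) : Prop :=
  (∀ s ∈ Tg V γ, ∀ t ∈ Tg V γ, s * t * s⁻¹ * t⁻¹ ∈ Subgroup.centralizer (V : Set G)) ∨
  ix V γ < ℓ ∨ Fr V γ

/-- A sufficient condition for the heights to be smaller than `k`. -/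
def Hk {F : Type} (ℓ k : ℕ) (V : Subgroup G) (γ : G → F) : Prop :=
  Nat.card V ≤ ℓ ^ (2 * k) * Nat.card (Uw ℓ V) ∨ ix V γ < ℓ ∨ (ix V γ < ℓ ^ (2 * k) ∧ Fr V γ)

/-- The first type of defect groups: `V` has exponent `ℓ ^ a`, `V / V ^ (ℓ ^ k)` has order at most
`ℓ ^ (a + k - 1)`, the heights are smaller than `k` by `Hk`. -/
structure Ta {F : Type} (ℓ a k : ℕ) (V : Subgroup G) (γ : G → F) : Prop where
  pos : 0 < k
  le : k ≤ a
  exp : Monoid.exponent V = ℓ ^ a
  hk : Hk ℓ k V γ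
  sz : Nat.card V ≤ ℓ ^ (a + k - 1) * Nat.card (Uw (ℓ ^ k) V)
  ei : Ei ℓ V γ

/-- The second type of defect groups: two generators, exponent `ℓ ^ a`, `a ≥ 3`. -/
structure Tb (ℓ a : ℕ) (V : Subgroup G) : Prop where
  le : 3 ≤ a
  exp : Monoid.exponent V = ℓ ^ a
  gen : ∃ x y : G, V = Subgroup.closure {x, y}

/-- The third type of defect groups: the inertial quotient acts freely and its order is at most
`ℓ ^ a`. -/
structure Tf {F : Type} (ℓ a : ℕ) (V : Subgroup G) (γ : G → F) : Prop where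
  pos : 0 < a
  exp : Monoid.exponent V = ℓ ^ a
  fr : Fr V γ
  ix : ix V γ ≤ ℓ ^ a

/-- the types of defect groups -/
def Ty8 {F : Type} (ℓ a : ℕ) (V : Subgroup G) (γ : G → F) : Prop :=
  (∃ k, Ta ℓ a k V γ) ∨ Tb ℓ a V ∨ Tf ℓ a V γ

end defs

end Pool.Agent.PP.T8
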