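import Pool.Agent.AT8.Stmts1

/-!
# Squad AT8, part 2: the coherence theorem

Text: `AWC_T8.md`.  Complete proofs in the docstrings.  `Ld ℓ e V γ`: `e` is a block of `G`, `V` an
abelian defect group, `γ` a block of `C(V)` under `e`, `T = Tg V γ` the inertial group.  A regular
element `u` of `V` (`Rg V γ u`) is centralised only by `C(V)` in `T`.  `Dat`: the local blocks `b u`,
their degrees `d u` and the signs `ε u`; `vv M b d u χ = χ(u b_u)/d_u`.  The theorem of this part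
(COH) says that on the regular elements the function `u ↦ ε(u) χ(u b_u)/d_u` is the restriction of a
combination of linear characters of `V` with coefficients in the local ring.
-/

open scoped BigOperators

noncomputable section

namespace Pool.Agent.PP.T8

open Pool.Agent.Helper51_AWC Pool.Agent.Helper79_WRA Pool.Agent.PP Pool.Agent.PP.KF
open Pool.Agent.PP.K9 Pool.Agent.PP.K9.H97 Pool.Agent.PP.H75 Pool.Agent.PP.T3 Pool.Agent.PP.T2

attribute [local instance] Ideal.Quotient.field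

/-! ## 4. The coherent idempotent -/

/-- MIN: a minimal idempotent of the elements of `F G` which commute with `V`.

Proof.  Let `κ ∈ IrrE γ`, `φ(t) = rr (κ t)` on `C(V)`, `Φ(a) = ∑_{t ∈ C(V)} a(t) φ(t)` for
`a : G → F` (it does not depend on `κ`, KNZ).  For `a` supported on `C(V)`: `Φ(a γ) = Φ(a)` (lift `a`
and use `IdmStmt` for `γ | C(V)`).  By KNZ there is `s ∈ C(V)` with `φ(s) ≠ 0`, RK1 for `C(V)`,
`x = δ_s` gives an idempotent `j₀` of `F C(V)` with `Φ(j₀) ≠ 0`; it commutes with `V`.  So the set `I`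
of the idempotents `j` of `F G` which commute with `V` and have `Φ(j) ≠ 0` is not empty; let `j ∈ I`
be such that the rank of `a ↦ j a` on `F G` is minimal.  Claim: let `w` commute with `V`, let `br_V(w)`
be a class function of `C(V)` and `br_V(w) γ = γ`.  Then `(j w j) ^ n = j` for some `n ≥ 1`.  By IDP
`j' = (j w j) ^ n` is an idempotent for some `n ≥ 1`; it commutes with `V` and
`j j' = j' = j' j`.  `br_V` is multiplicative on the elements which commute with `V`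
(`H75.br_mulF`), so `br_V(j') γ = br_V(j) (br_V(w) ^ n γ) = br_V(j) γ` (`br_V(w)` is central in
`F C(V)`), so `Φ(j') = Φ(br_V(j') γ) = Φ(br_V(j) γ) = Φ(j) ≠ 0`, `j' ∈ I`.  The image of `a ↦ j' a` is
contained in that of `a ↦ j a`, so by minimality they are equal, `j = j' a`, `j' j = j`, `j' = j`.
(i) `w = γ`: `br_V(j) = (br_V(j) γ br_V(j)) ^ n = br_V(j) γ`.  (ii) `w = b`, the local block of
`z ∈ V`: `b` is a class function of `C(z)`, so it commutes with `V ≤ C(z)`, `br_V(b) γ = γ`.  The map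
`rs (Cu z)` is multiplicative on the elements which commute with `z` (`H75.br_mulF` for the group
generated by `z`), so `rs j = (rs(j) b rs(j)) ^ n = rs(j) b` (`b` is a central idempotent of
`F C(z)`, `rs (Cu z) b = b`). -/
def MinStmt : Prop := ∀ (ℓ : ℕ) [Fact ℓ.Prime] (M : Ideal (integralClosure ℤ ℂ)) [M.IsMaximal],
  (ℓ : integralClosure ℤ ℂ) ∈ M → ∀ (G : Type) [Group G] [Finite G] (e : G → FF M)
  (V : Subgroup G) (γ : G → FF M), Ld ℓ e V γ → ∃ j : G → FF M, mulF j j = j ∧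
  (∀ v ∈ V, ∀ x, j (v * x * v⁻¹) = j x) ∧ mulF (br V j) γ = br V j ∧
  (∀ z ∈ V, ∀ b, Lc e V γ z b → mulF (rs (Cu z) j) b = rs (Cu z) j) ∧
  ∀ κ ∈ IrrE M (fun t : Subgroup.centralizer (V : Set G) => γ t),
    ∑ᶠ t : Subgroup.centralizer (V : Set G), j t * rr M (κ t) ≠ 0

/-- CID: existence of a coherent idempotent.

Proof.  MIN and LFT (`C = ⊤`); `rr (∑ i(t) κ(t)) = ∑ j(t) rr κ(t)`. -/
def CidStmt : Prop := ∀ (ℓ : ℕ) [Fact ℓ.Prime] (M : Ideal (integralClosure ℤ ℂ)) [M.IsMaximal],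
  (ℓ : integralClosure ℤ ℂ) ∈ M → ∀ (G : Type) [Group G] [Finite G] (e : G → FF M)
  (V : Subgroup G) (γ : G → FF M), Ld ℓ e V γ → ∃ i : G → ℂ, Ci M e V γ i

/-- LCL: the local idempotents.

Proof.  `x = rs (Cu z) (rd M i)` is an idempotent (`rs (Cu z)` is multiplicative on the elements of
`F G` which commute with `z`, `H75.br_mulF`) supported on `C(z)` and commuting with `V`.  LFT for
`C = C(z)`: `j`.  SMI: `fv i z th = fv j z th`.  Let `b^` be the extension of `eh M b` by zero, a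
central idempotent of the group ring of `C(z)` over `RM M`.  `p = j - j b^` is an idempotent with
residue `x - x b = 0` (`Ci.lb`), so `p = 0`: `1 - L`, `L` the matrix of `y ↦ p y`, has a determinant
with residue `1`, so it is invertible, and `(1 - L) L = 0`. -/
def LclStmt : Prop := ∀ (ℓ : ℕ) [Fact ℓ.Prime] (M : Ideal (integralClosure ℤ ℂ)) [M.IsMaximal],
  (ℓ : integralClosure ℤ ℂ) ∈ M → ∀ (G : Type) [Group G] [Finite G] (e : G → FF M)
  (V : Subgroup G) (γ : G → FF M), Ld ℓ e V γ → ∀ i : G → ℂ, Ci M e V γ i → ∀ z ∈ V, ∀ b,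
  Lc e V γ z b → ∃ j : G → ℂ, Ip M V j ∧ (∀ g, g ∉ Cu z → j g = 0) ∧
    (∀ g ∈ Cu z, rr M (j g) = rr M (i g)) ∧
    mulF j (PP.ext0 (Cu z) (eh M (fun t : Cu z => b t))) = j ∧
    ∀ th : G → ℂ, (∀ x y, th (y * x * y⁻¹) = th x) → fv i z th = fv j z th

/-! ## 5. The data of the regular elements -/

/-- DAT: existence of the data.

Proof.  RGL gives `b u`, `d u`, DGC gives `c`.  By LSB and RGL `C(u)`, `b u`, `V`, `γ` satisfy the
hypotheses of NIT (inertial index one), which gives `ε u`. -/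
def DatStmt : Prop := ∀ (ℓ : ℕ) [Fact ℓ.Prime] (M : Ideal (integralClosure ℤ ℂ)) [M.IsMaximal],
  (ℓ : integralClosure ℤ ℂ) ∈ M → ∀ (G : Type) [Group G] [Finite G] (e : G → FF M)
  (V : Subgroup G) (γ : G → FF M), Ld ℓ e V γ → ∃ (b : G → G → FF M) (d : G → ℕ) (c : ℕ)
  (ε : G → ℤ), Dat M ℓ e V γ b d c ε

/-- DPW: conjugation with the inertial group, and powers.

Proof.  Let `t ∈ T`, `u' = t u t⁻¹`.  `u'` is regular (`T ∩ C(u') = t (T ∩ C(u)) t⁻¹`).  `cj t (b u)` is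
the local block of `u'`: a block of `C(u') = t C(u) t⁻¹` under `e`, and
`br_V(cj t (b u)) γ = cj t (br_V(b u) γ) = γ`; by uniqueness (LOC) it is `b u'`.  So `d u' = d u` (a
block has a character), `gv u' (b u') χ = gv u (b u) χ` (`χ` is a class function), and
`|C(u')| = |C(u)|`, so `ε u'` and `ε u` are equal in `F`, so equal (`ℓ ≠ 2`).  Powers: `T3.LpwStmt` and
uniqueness, `C(u ^ j) = C(u)`; if `v ∈ V` and `v ^ j` is regular then `v` is regular, as `v` is a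
power of `v ^ j`. -/
def DpwStmt : Prop := ∀ (ℓ : ℕ) [Fact ℓ.Prime] (M : Ideal (integralClosure ℤ ℂ)) [M.IsMaximal],
  (ℓ : integralClosure ℤ ℂ) ∈ M → ℓ ≠ 2 → ∀ (G : Type) [Group G] [Finite G] (e : G → FF M)
  (V : Subgroup G) (γ : G → FF M) (b : G → G → FF M) (d : G → ℕ) (c : ℕ) (ε : G → ℤ),
  Dat M ℓ e V γ b d c ε →
  (∀ t ∈ Tg V γ, ∀ u, Rg V γ u → Rg V γ (t * u * t⁻¹) ∧ ε (t * u * t⁻¹) = ε u ∧
    ∀ χ ∈ Irr G, vv M b d (t * u * t⁻¹) χ = vv M b d u χ) ∧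
  (∀ u, Rg V γ u → ∀ j : ℕ, ¬ ℓ ∣ j → Rg V γ (u ^ j) ∧ b (u ^ j) = b u ∧ d (u ^ j) = d u ∧
    ε (u ^ j) = ε u) ∧
  ∀ v ∈ V, ∀ j : ℕ, ¬ ℓ ∣ j → (Rg V γ (v ^ j) ↔ Rg V γ v)

/-- DOR: orthogonality.

Proof.  If `u = t u' t⁻¹` then `vv u = vv u'` (DPW; for this part `ℓ ≠ 2` is not needed), and the sum
is `|V|` (CO1, and `b u` has `|V|` characters of degree `d u` by RGL and uniqueness).  Otherwise CO2:
if `x u' x⁻¹ = u` then `b u` and `cj x (b u')` are blocks of `C(u)`; if they were equal, FUS would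
give `t ∈ T` with `t u' t⁻¹ = u`; so their product is zero (`Bx.dich`). -/
def DorStmt : Prop := ∀ (ℓ : ℕ) [Fact ℓ.Prime] (M : Ideal (integralClosure ℤ ℂ)) [M.IsMaximal],
  (ℓ : integralClosure ℤ ℂ) ∈ M → ∀ (G : Type) [Group G] [Finite G] (e : G → FF M)
  (V : Subgroup G) (γ : G → FF M) (b : G → G → FF M) (d : G → ℕ) (c : ℕ) (ε : G → ℤ),
  Dat M ℓ e V γ b d c ε → ∀ u u', Rg V γ u → Rg V γ u' →
  ((∃ t ∈ Tg V γ, t * u' * t⁻¹ = u) →
    ∑ᶠ χ ∈ Irr G, vv M b d u χ * starRingEnd ℂ (vv M b d u' χ) = Nat.card V) ∧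
  ((¬ ∃ t ∈ Tg V γ, t * u' * t⁻¹ = u) →
    ∑ᶠ χ ∈ Irr G, vv M b d u χ * starRingEnd ℂ (vv M b d u' χ) = 0)

/-- DCG: the congruence.

Proof.  By `K9.OmgStmt` and RSV, `|G| gv u b χ/(|C(u)| χ(1))` is in `RM M` with residue
`|T : T ∩ C(u)| = |T : C(V)|` (`u` is regular).  Multiply with `Dat.cg`. -/
def DcgStmt : Prop := ∀ (ℓ : ℕ) [Fact ℓ.Prime] (M : Ideal (integralClosure ℤ ℂ)) [M.IsMaximal],
  (ℓ : integralClosure ℤ ℂ) ∈ M → ∀ (G : Type) [Group G] [Finite G] (e : G → FF M)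
  (V : Subgroup G) (γ : G → FF M) (b : G → G → FF M) (d : G → ℕ) (c : ℕ) (ε : G → ℤ),
  Dat M ℓ e V γ b d c ε → ∀ u, Rg V γ u → ∀ χ ∈ IrrE M e,
    (vv M b d u χ * ((Nat.card G * c : ℂ) /
      (Nat.card (Subgroup.centralizer (V : Set G)) * χ 1))) ∈ RM M ∧
    rr M (vv M b d u χ * ((Nat.card G * c : ℂ) /
      (Nat.card (Subgroup.centralizer (V : Set G)) * χ 1))) = ((ε u * ix V γ : ℤ) : FF M)

/-! ## 6. The values of the coherent idempotent -/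

/-- FRY: the values at the regular elements.

Proof.  Let `C = C(u)`, `j` from LCL for `u`, `b u`.  On `C` write `χ = ∑ m_κ κ`.  `fv i u χ = fv j u χ =
∑_{s ∈ C} j(s) χ(u s) = ∑_κ m_κ (κ(u)/κ(1)) κ(j)` (`u` is central in `C`).  `κ(j) = κ(j b^)` is `0` if
`κ ∉ b u` (`IdmStmt`).  The block `b u` of `C` has inertial index one (LSB, RGL), so its characters
agree at the regular elements (RG1), so `κ(j) = r` does not depend on `κ ∈ b u` (PRJ for
`th = κ - κ'`); `r` is the trace of the idempotent `ρ_κ(j)`, an integer.  So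
`fv i u χ = r ∑_{κ ∈ b u} m_κ κ(u)/d u = r gv u (b u) χ / d u` (`κ(u b^) = κ(u)` for `κ ∈ b u`, `0`
otherwise).  Congruence: OMI for the group `C`, the block `b u`, `V`, `γ` (LSB), the function `j`
(`br_V(rd j) = br_V(rd i)` because `C(V) ≤ C`): `|C| r/(|V| d u)` and
`|C(V)| (∑ j(t) κ(t))/(|V| c)` are in `RM M` with the same residue.  Multiply with
`|V| c/|C(V)| ∈ RM M` (KNZ): `r |C| c/(|C(V)| d u)` has residue `rr (∑ j(t) κ(t)) =
rr (∑ i(t) κ(t))`, and by `Dat.cg` the residue is `r ε(u)`. -/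
def FryStmt : Prop := ∀ (ℓ : ℕ) [Fact ℓ.Prime] (M : Ideal (integralClosure ℤ ℂ)) [M.IsMaximal],
  (ℓ : integralClosure ℤ ℂ) ∈ M → ∀ (G : Type) [Group G] [Finite G] (e : G → FF M)
  (V : Subgroup G) (γ : G → FF M) (b : G → G → FF M) (d : G → ℕ) (c : ℕ) (ε : G → ℤ),
  Dat M ℓ e V γ b d c ε → ∀ i : G → ℂ, Ci M e V γ i → ∀ u, Rg V γ u → ∃ r : ℤ,
  (∀ χ ∈ Irr G, fv i u χ = r * vv M b d u χ) ∧
  ∀ κ ∈ IrrE M (fun t : Subgroup.centralizer (V : Set G) => γ t),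
    ((r * ε u : ℤ) : FF M) = rr M (∑ᶠ t : Subgroup.centralizer (V : Set G), i t * κ t)

/-- ORI: orthogonality for all elements `z` of `V`.

Proof.  Let `b_z` be the local block of `z` (LOC), `j` from LCL.  Let
`J(s) = |C(z)|⁻¹ ∑_{x ∈ C(z)} j(x s x⁻¹)` for `s ∈ C(z)`: a class function of `C(z)` with
`J b_z^ = J`, `∑_s j(s) χ(z s) = ∑_s J(s) χ(z s)` (`s ↦ χ(z s)` is a class function of `C(z)`), and `J`
vanishes at the singular elements (PRJ for `C(z)`, `th` the indicator of a singular class).  So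
`fv i z χ = chv (z J) χ`, and the complex conjugate of `χ(u b_u^)` is `χ(u⁻¹ b_u^)`.  By
`TrcStmt` the sum is, up to the factor `1/d_u`, the sum of `J(s) b_u^(s')` over the `x ∈ G`, `s`, `s'`
with `x⁻¹ (z s)⁻¹ x = u⁻¹ s'`, `s ∈ C(z)`, `s' ∈ C(u)` regular.  Comparing the `ℓ`-parts,
`x u x⁻¹ = z`.  For such an `x` the sum over `s` is the value at `1` of the product of `J` and the
lift of `cj x (b u)`, a block of `C(z)`.  If `cj x (b u) = b_z` then FUS gives `t ∈ T` with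
`t u t⁻¹ = z`, against the hypothesis.  Otherwise the product is `J b_z^ (cj x b_u)^ = 0`.  (Compare
`T3.Co2Stmt`.) -/
def OriStmt : Prop := ∀ (ℓ : ℕ) [Fact ℓ.Prime] (M : Ideal (integralClosure ℤ ℂ)) [M.IsMaximal],
  (ℓ : integralClosure ℤ ℂ) ∈ M → ∀ (G : Type) [Group G] [Finite G] (e : G → FF M)
  (V : Subgroup G) (γ : G → FF M) (b : G → G → FF M) (d : G → ℕ) (c : ℕ) (ε : G → ℤ),
  Dat M ℓ e V γ b d c ε → ∀ i : G → ℂ, Ci M e V γ i → ∀ u, Rg V γ u → ∀ z ∈ V,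
  (∀ t ∈ Tg V γ, t * u * t⁻¹ ≠ z) →
    ∑ᶠ χ ∈ Irr G, fv i z χ * starRingEnd ℂ (vv M b d u χ) = 0

/-- CSQ: the function `cc` at the regular elements.

Proof.  For `z ∈ V` the number `fv i (t z t⁻¹) χ`, `t ∈ T`, depends only on the coset `t C(V)`.  For
`u` regular let `O(u)` be the set of the `t u t⁻¹`, `t ∈ T`, with `|T : C(V)|` elements, all regular
with `vv z = vv u`, `ε z = ε u` (DPW).  Let `r z` be the integer of FRY, `R u = ∑_{z ∈ O(u)} r z`.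
Then `fs u χ = R u vv u χ`, and `r z ε u` has residue `ρ = rr (∑ i(t) κ(t))` for all `z ∈ O(u)`,
so `R u ε u` has residue `ix ρ`.  The number `(F_χ, 1) = |V|⁻¹ ∑_v fs v χ` is an integer (FCH for the
trivial character, and `v ↦ t v t⁻¹` is a bijection of `V`), so real, and
`cc u = |V|⁻¹ ∑_v ∑_χ conj (fs v χ) R u vv u χ`.  `∑_v ∑_χ fs v χ conj (vv u χ) =
ix ∑_{z ∈ V} ∑_χ fv i z χ conj (vv u χ)`, by ORI only `z ∈ O(u)` contribute, each
`r z |V|` (FRY, DOR with `vv z = vv u`).  So the double sum is `ix |V| R u`, and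
`cc u = ix (R u)²`. -/
def CsqStmt : Prop := ∀ (ℓ : ℕ) [Fact ℓ.Prime] (M : Ideal (integralClosure ℤ ℂ)) [M.IsMaximal],
  (ℓ : integralClosure ℤ ℂ) ∈ M → ℓ ≠ 2 → ∀ (G : Type) [Group G] [Finite G] (e : G → FF M)
  (V : Subgroup G) (γ : G → FF M) (b : G → G → FF M) (d : G → ℕ) (c : ℕ) (ε : G → ℤ),
  Dat M ℓ e V γ b d c ε → ∀ i : G → ℂ, Ci M e V γ i → ∃ R : G → ℤ, ∀ u, Rg V γ u →
  (∀ χ ∈ Irr G, fs V γ i u χ = R u * vv M b d u χ) ∧
  (∀ κ ∈ IrrE M (fun t : Subgroup.centralizer (V : Set G) => γ t),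
    ((R u * ε u : ℤ) : FF M) =
      ix V γ * rr M (∑ᶠ t : Subgroup.centralizer (V : Set G), i t * κ t)) ∧
  cc V γ i u = ix V γ * (R u : ℂ) ^ 2

/-! ## 7. The ring of functions -/

/-- RVA: the functions in `Rv M V` form a ring.

Proof.  `a_lam(f) = |V|⁻¹ ∑_v f(v) lam(v⁻¹)`.  Fourier inversion: `f(v) = ∑_lam a_lam(f) lam(v)` for
`v ∈ V`, the sum over all homomorphisms `lam : V → ℂ` (`V` is abelian; there are `|V|` of them,
Mathlib: duality for finite abelian groups, orthogonality).  `a_lam(f g) = ∑_mu a_mu(f) a_(lam/mu)(g)`.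
`a_lam(|V| f) = ∑_v f(v) lam(v⁻¹)`, the values of `lam` are roots of unity, in `RM M`.  Conjugation
with `t ∈ N(V)` permutes the homomorphisms. -/
def RvaStmt : Prop := ∀ (M : Ideal (integralClosure ℤ ℂ)) [M.IsMaximal] (G : Type) [Group G]
  [Finite G] (V : Subgroup G), (∀ a ∈ V, ∀ b ∈ V, a * b = b * a) →
  (∀ a ∈ RM M, Rv M V (fun _ => a)) ∧
  (∀ f g : G → ℂ, Rv M V f → Rv M V g → Rv M V (fun x => f x + g x) ∧
    Rv M V (fun x => f x * g x)) ∧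
  (∀ f : G → ℂ, (∀ v ∈ V, f v ∈ RM M) → Rv M V (fun x => Nat.card V * f x)) ∧
  (∀ f : G → ℂ, Rv M V f → ∀ v ∈ V, f v ∈ RM M) ∧
  (∀ f : G → ℂ, Rv M V f → ∀ t ∈ Subgroup.normalizer (V : Set G),
    Rv M V (fun x => f (t * x * t⁻¹))) ∧
  ∀ f g : G → ℂ, (∀ v ∈ V, f v = g v) → Rv M V f → Rv M V g

/-- RVC: congruences between the values.

Proof.  Fourier inversion (RVA): `f(v) - f(1) = ∑ a_lam (lam(v) - 1)`, `lam(v) = ζ ^ k`, and
`1 - ζ ^ k` is `1 - ζ` times an algebraic integer.  For `j` prime to `ℓ` also `1 - ζ` is `1 - ζ ^ j`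
times an algebraic integer (`ζ` is a power of `ζ ^ j`), and the product of the `1 - ζ ^ j` over the
`j < ℓ ^ A` prime to `ℓ` is `ℓ` (value of the cyclotomic polynomial at `1`), so `(1 - ζ) ^ m`,
`m = φ(ℓ ^ A)`, is `ℓ` times an algebraic integer; `K = m A`. -/
def RvcStmt : Prop := ∀ (ℓ : ℕ) [Fact ℓ.Prime] (M : Ideal (integralClosure ℤ ℂ)) [M.IsMaximal],
  (ℓ : integralClosure ℤ ℂ) ∈ M → ∀ (A : ℕ), 0 < A → ∀ ζ : ℂ, IsPrimitiveRoot ζ (ℓ ^ A) →
  (1 - ζ) ∈ RM M ∧ rr M (1 - ζ) = 0 ∧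
  (∃ (K : ℕ), ∃ r ∈ RM M, (1 - ζ) ^ K = (ℓ : ℂ) ^ A * r) ∧
  ∀ (G : Type) [Group G] [Finite G] (V : Subgroup G), (∀ a ∈ V, ∀ b ∈ V, a * b = b * a) →
    Nat.card V = ℓ ^ A → ∀ f : G → ℂ, Rv M V f → ∀ v ∈ V, ∃ r ∈ RM M,
      f v - f 1 = (1 - ζ) * r

/-- SER: the square root.

Proof.  If `X` is empty take `s = 0`.  Let `|V| = ℓ ^ A`; if `A = 0` then `V = 1`, take the constant
`1/R(1)`.  Let `A > 0`, `ζ` as in RVC, `π = 1 - ζ`.  The function `h = g/n² - 1` is in `Rv` (RVA) and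
`h(y₀) ∈ ℓ RM M ⊆ π RM M` for `y₀ ∈ X` (`π` divides `ℓ` in the algebraic integers), so
`h(v) ∈ π RM M` for all `v ∈ V` (RVC).  For every `K` there are polynomials `P, Q` over `RM M` with
`P(0) = 1` and `P² (1 + T) = 1 + T ^ K Q` (induction: `P - (Q(0)/2) T ^ K` for `K + 1`; `2` is a unit of
`RM M`).  Take the `K` of RVC: `π ^ K ∈ |V| RM M`.  `s' = n⁻¹ P(h)` is in `Rv`.  For `y ∈ X`:
`(s'(y) R(y))² = n⁻² P(h)² g = P(h)² (1 + h) = 1 + h ^ K Q(h)` at `y`, in `1 + π ^ K RM M`, and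
`s'(y) R(y) = n⁻¹ R(y) P(h(y))` has residue `1`, so `s'(y) R(y) + 1` has residue `2 ≠ 0` and
`s'(y) R(y) - 1 ∈ π ^ K RM M ⊆ |V| RM M`.  Put `s(y) = 1/R(y)` for `y ∈ X` and `s(v) = s'(v)`
otherwise: `s - s'` is `|V|` times a function with values in `RM M` (`R(y)` is a unit of `RM M`), so
`s` is in `Rv` (RVA).  `N`: `s'` is a polynomial in `g`, so `s'(v ^ N) = s'(v)`.  For `y ∈ X` also
`y ^ N ∈ X`, `R(y ^ N)² = g(y ^ N) = g(y) = R(y)²`, and `R(y ^ N) = n = R(y)` modulo `ℓ`, so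
`R(y ^ N) = R(y)` (otherwise `ℓ ∣ 2 n`). -/
def SerStmt : Prop := ∀ (ℓ : ℕ) [Fact ℓ.Prime] (M : Ideal (integralClosure ℤ ℂ)) [M.IsMaximal],
  (ℓ : integralClosure ℤ ℂ) ∈ M → ℓ ≠ 2 → ∀ (G : Type) [Group G] [Finite G] (V : Subgroup G),
  IsPGroup ℓ V → (∀ a ∈ V, ∀ b ∈ V, a * b = b * a) → ∀ g : G → ℂ, Rv M V g →
  ∀ (X : Set G) (R : G → ℤ) (n : ℤ), ¬ (ℓ : ℤ) ∣ n →
  (∀ y ∈ X, y ∈ V ∧ g y = (R y : ℂ) ^ 2 ∧ (ℓ : ℤ) ∣ R y - n) →
  ∃ s : G → ℂ, Rv M V s ∧ (∀ y ∈ X, s y * R y = 1) ∧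
    ∀ N : ℕ, (∀ v ∈ V, g (v ^ N) = g v) → (∀ v ∈ V, v ^ N ∈ X ↔ v ∈ X) →
      ∀ v ∈ V, s (v ^ N) = s v

/-! ## 8. The coherence theorem -/

/-- COH: the coherence theorem.

Proof.  If there is no regular element take `f = 0`.  Let `i` be a coherent idempotent (CID), `ρ =
rr (∑ i(t) κ(t)) ≠ 0` (for one `κ ∈ γ`), `F_χ(z) = fs V γ i z χ`.  `F_χ` is in `Rv` (FCH, RVA for the
conjugation with `t ∈ T ≤ N(V)`, sums), `|V|⁻¹ ∑_v F_χ(v)` is an integer (FCH), so `cc V γ i` is in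
`Rv`, and `g = cc/ix` is in `Rv` (`ix` is prime to `ℓ` by `K9.InxStmt`, a unit of `RM M`).  With `R` from
CSQ and `R'(u) = ε u R u`: `g(u) = R'(u)²` at the regular elements, and `R'(u)` has residue `ix ρ ≠ 0`.
So with `n = R'(u₀)` for one regular `u₀`: `ℓ ∤ n`, `ℓ ∣ R'(u) - n` (`KF.dvd_of_rr`).  SER, `X` the set of
the regular elements: `s`.  `f(z) = F_χ(z) s(z)` is in `Rv` and
`f(u) = R u vv u χ/(ε u R u) = ε u vv u χ`.  Power map: by GEQ `F_χ(z ^ N) = F_{χ'}(z)`,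
`χ' = (g ↦ χ(g ^ N))` (`t z ^ N t⁻¹ = (t z t⁻¹) ^ N`).  `χ ↦ χ'` is a permutation of `Irr G` (RTC in the
form of `Helper23_AT3/RTC.lean`, `H23.irr_pow`; injective since `g ↦ g ^ N` is a bijection), and
`∑_v F_{χ'}(v) = ∑_v F_χ(v ^ N) = ∑_v F_χ(v)`, so `cc(z ^ N) = cc(z)`.  `z ^ N` is regular iff `z` is
(DPW, `N` is prime to `ℓ`; if `ℓ` does not divide `|G|` then there is no regular element).  So
`s(z ^ N) = s(z)` by SER, and if `χ' = χ` then `f(z ^ N) = f(z)`. -/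
def CohStmt : Prop := ∀ (ℓ : ℕ) [Fact ℓ.Prime] (M : Ideal (integralClosure ℤ ℂ)) [M.IsMaximal],
  (ℓ : integralClosure ℤ ℂ) ∈ M → ℓ ≠ 2 → ∀ (G : Type) [Group G] [Finite G] (N : ℕ), GS G ℓ N →
  ∀ (e : G → FF M) (V : Subgroup G) (γ : G → FF M) (b : G → G → FF M) (d : G → ℕ) (c : ℕ)
  (ε : G → ℤ), Dat M ℓ e V γ b d c ε → ∀ χ ∈ Irr G, ∃ f : G → ℂ, Rv M V f ∧
    (∀ u, Rg V γ u → f u = ε u * vv M b d u χ) ∧
    ((∀ g, χ (g ^ N) = χ g) → ∀ v ∈ V, f (v ^ N) = f v)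

end Pool.Agent.PP.T8
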