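import Pool.Agent.AT8.Stmts2

/-!
# Squad AT8, part 3: heights and the bound for the number of modular characters

Text: `AWC_T8.md`.  Complete proofs in the docstrings.  `vv M b d u χ = χ(u b_u)/d_u` for the regular
elements `u` of `V`; `Rk ℓ a k V γ y`: `y ∈ V` has order `ℓ ^ a` and the coset `y V ^ (ℓ ^ k)` is
fixed only by `C(V)`; `av M b d ε W y χ` is the average of the `ε(y w) vv(y w) χ` over `w ∈ W`.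
-/

open scoped BigOperators

noncomputable section

namespace Pool.Agent.PP.T8

open Pool.Agent.Helper51_AWC Pool.Agent.Helper79_WRA Pool.Agent.PP Pool.Agent.PP.KF
open Pool.Agent.PP.K9 Pool.Agent.PP.K9.H97 Pool.Agent.PP.H75 Pool.Agent.PP.T3 Pool.Agent.PP.T2

attribute [local instance] Ideal.Quotient.field

/-! ## 9. Arithmetic -/

/-- NRM: the conjugates of an element divisible by `ℓ ^ h`.

Proof.  Let `x_j = ℓ ^ (-s) ∑ m_i ζ ^ (i j)`, `m = ℓ ^ (a-1) (ℓ - 1)` the number of the `j < ℓ ^ a` prime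
to `ℓ`.  `Π = ∏_j ∑_i m_i ζ ^ (i j)` (over these `j`) is a rational integer (the norm of
`∑ m_i ζ ^ i` from the cyclotomic field; or the resultant with the cyclotomic polynomial), not `0`
(all factors are conjugates of `x_1`).  `Π/ℓ ^ ((s + h) m) = ∏ x_j/ℓ ^ h ∈ RM M`, so `ℓ ^ ((s + h) m)`
divides `Π` (otherwise `1/ℓ ∈ RM M`, but `ℓ ∈ M`).  So `∏ |x_j|² ≥ ℓ ^ (2 h m)`, and by the inequality
between the arithmetic and the geometric mean `∑ |x_j|² ≥ m ℓ ^ (2 h)`. -/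
def NrmStmt : Prop := ∀ (ℓ : ℕ) [Fact ℓ.Prime] (M : Ideal (integralClosure ℤ ℂ)) [M.IsMaximal],
  (ℓ : integralClosure ℤ ℂ) ∈ M → ∀ (a s h : ℕ), 0 < a → ∀ ζ : ℂ, IsPrimitiveRoot ζ (ℓ ^ a) →
  ∀ m : ℕ → ℤ,
  (∀ j : ℕ, ¬ ℓ ∣ j →
    (∑ i ∈ Finset.range (ℓ ^ a), (m i : ℂ) * ζ ^ (i * j)) / ℓ ^ s / ℓ ^ h ∈ RM M) →
  ∑ i ∈ Finset.range (ℓ ^ a), (m i : ℂ) * ζ ^ i ≠ 0 →
  ((ℓ ^ (a - 1) * (ℓ - 1) * ℓ ^ (2 * h) : ℕ) : ℝ) ≤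
    ∑ j ∈ (Finset.range (ℓ ^ a)).filter (fun j => ¬ ℓ ∣ j),
      Complex.normSq ((∑ i ∈ Finset.range (ℓ ^ a), (m i : ℂ) * ζ ^ (i * j)) / ℓ ^ s)

/-! ## 10. Heights -/

/-- SBS: Bessel's inequality with the vector of the degrees.

Proof.  Let `A = ∑_u |vv u χ|²`; if `A = 0` the claim is clear.  `w = ∑_u conj (vv u χ) v_u`,
`v_u = (vv u χ')_{χ'}`, a vector on `Irr G`.  `w(χ) = A` and, by DOR and DPW (the set of the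
`t u t⁻¹` has `|T : C(V)|` elements, `vv` is constant on it; write the row sums without DPW:
`|vv u χ| = |vv u' χ|` there), `|w|² = ix |V| A`.  All `v_u` vanish outside `IrrE e` (SMG) and are
orthogonal to `D = (χ'(1))_{χ' ∈ e}` (a combination of the sums `∑_{χ' ∈ e} χ'(1) χ'(g)`, `g`
singular, `K9.WboStmt`).  So `A = (w, δ_χ) = (w, δ_χ - p)`, `p` the projection of `δ_χ` on `D`, and
`|δ_χ - p|² = 1 - χ(1)²/∑ χ'(1)² < 1`.  Cauchy-Schwarz: `A² < ix |V| A`. -/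
def SbsStmt : Prop := ∀ (ℓ : ℕ) [Fact ℓ.Prime] (M : Ideal (integralClosure ℤ ℂ)) [M.IsMaximal],
  (ℓ : integralClosure ℤ ℂ) ∈ M → ℓ ≠ 2 → ∀ (G : Type) [Group G] [Finite G] (e : G → FF M)
  (V : Subgroup G) (γ : G → FF M) (b : G → G → FF M) (d : G → ℕ) (c : ℕ) (ε : G → ℤ),
  Dat M ℓ e V γ b d c ε → ∀ χ ∈ IrrE M e,
    ∑ᶠ (u : G) (_ : Rg V γ u), Complex.normSq (vv M b d u χ) < (ix V γ * Nat.card V : ℕ)

/-- RKX: elements which are regular modulo `V ^ (ℓ ^ k)`.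

Proof.  `W = V ^ (ℓ ^ k)` is the set of the `v ^ (ℓ ^ k)` (PWU), normalised by `T`.  (i) `j` prime to
`ℓ`: `y` is a power of `y ^ j`; if `t y ^ j t⁻¹ = y ^ j w` then `t y t⁻¹ ∈ y W`.  (ii) If `t ∈ T` commutes
with `y w` then `t y t⁻¹ = y w t w⁻¹ t⁻¹ ∈ y W`.  The order of `y w`: `w ^ (ℓ ^ (a-1)) = 1` as `k ≥ 1`, so
`(y w) ^ (ℓ ^ (a-1)) = y ^ (ℓ ^ (a-1)) ≠ 1`.  (iii) Let `t y ^ j w t⁻¹ = y ^ j' w'`.  Modulo `W` the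
element `t` maps `y ^ j` to `y ^ j'`, so it maps `y` to `y ^ r` with `r j = j'` modulo the order of `y`
in `V/W` (`y` is a power of `y ^ j`), `r = 1` modulo `ℓ` (`ℓ` divides that order, as `k ≥ 1`: if
`y = v ^ ℓ` then `y ^ (ℓ ^ (a-1)) = 1`).  `m = |T : C(V)|` is prime to `ℓ` and `t ^ m ∈ C(V)`, so
`y ^ (r ^ m) = y` modulo `W`; the multiplicative order of `r` modulo the order of `y` in `V/W` is a
power of `ℓ`, so `r = 1` modulo that order: `t y t⁻¹ ∈ y W`, `t ∈ C(V)`.  (iv) If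
`y ^ (j - j') ∈ W` with `j - j' = ℓ ^ i n`, `i < k`, `ℓ ∤ n` (the difference as an integer), then
`y ^ (ℓ ^ i) = v ^ (ℓ ^ k)`, and `y ^ (ℓ ^ (i + a - k)) = v ^ (ℓ ^ a) = 1`, against `i + a - k < a`. -/
def RkxStmt : Prop := ∀ (ℓ : ℕ) [Fact ℓ.Prime] (F : Type) [Field F], GoodF ℓ F → ∀ (G : Type)
  [Group G] [Finite G] (e : G → F) (V : Subgroup G) (γ : G → F), Ld ℓ e V γ → ¬ ℓ ∣ ix V γ →
  ∀ a k : ℕ, 0 < k → k ≤ a → Monoid.exponent V = ℓ ^ a → ∀ y, Rk ℓ a k V γ y →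
  (∀ j : ℕ, ¬ ℓ ∣ j → Rk ℓ a k V γ (y ^ j)) ∧
  (∀ w ∈ Uw (ℓ ^ k) V, Rg V γ (y * w) ∧ orderOf (y * w) = ℓ ^ a) ∧
  (∀ j j' : ℕ, ¬ ℓ ∣ j → j ≡ j' [MOD ℓ] → ∀ w ∈ Uw (ℓ ^ k) V, ∀ w' ∈ Uw (ℓ ^ k) V,
    ∀ t ∈ Tg V γ, t * (y ^ j * w) * t⁻¹ = y ^ j' * w' →
      t ∈ Subgroup.centralizer (V : Set G)) ∧
  ∀ j j' : ℕ, ∀ w ∈ Uw (ℓ ^ k) V, ∀ w' ∈ Uw (ℓ ^ k) V, y ^ j * w = y ^ j' * w' →
    j ≡ j' [MOD ℓ ^ k]

/-- XCT: the number of the regular elements.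

Proof.  The elements `t y w t⁻¹`, `t ∈ T`, `w ∈ W = V ^ (ℓ ^ k)`, are regular (RKX (ii)), and if
`t y w t⁻¹ = t' y w' t'⁻¹` then `t'⁻¹ t ∈ C(V)` (RKX (iii), `j = j' = 1`), `w = w'`.  So there are
`|T : C(V)| |W|` of them. -/
def XctStmt : Prop := ∀ (ℓ : ℕ) [Fact ℓ.Prime] (F : Type) [Field F], GoodF ℓ F → ∀ (G : Type)
  [Group G] [Finite G] (e : G → F) (V : Subgroup G) (γ : G → F), Ld ℓ e V γ → ¬ ℓ ∣ ix V γ →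
  ∀ a k : ℕ, 0 < k → k ≤ a → Monoid.exponent V = ℓ ^ a → ∀ y, Rk ℓ a k V γ y →
  ix V γ * Nat.card (Uw (ℓ ^ k) V) ≤ {u | Rg V γ u}.ncard

/-- HKX: a sufficient condition for the heights to be smaller than `k`.

Proof.  Let `n` be the number of the regular elements, `V ≠ 1`.  (i) `|V| ≤ ℓ ^ (2 k) |V ^ ℓ|`: XCT with
`k = 1`.  (ii) `ix V γ < ℓ`: as in `T3.CntStmt` (`Helper49_AT3/CNT.lean`), `ℓ n ≥ |V| (ℓ - ix + 1) +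
ℓ (ix - 2)`, so for `ix ≥ 2`: `ℓ² n ≥ ℓ (ℓ - ix + 1) |V| ≥ ix |V|`, as `ℓ (ℓ + 1) ≥ (ℓ + 1) ix`; for
`ix = 1`: `n = |V| - 1`.  (iii) `T` acts freely: `n = |V| - 1`; the orbits of `T/C(V)` on `V - 1` are
regular, so `ix ≤ |V| - 1`.  If `|V| ≥ ℓ ^ (2 k)` then `ix |V| ≤ (ℓ ^ (2 k) - 1) |V| ≤
ℓ ^ (2 k) (|V| - 1)`, otherwise `ix |V| ≤ (|V| - 1) |V| ≤ ℓ ^ (2 k) (|V| - 1)`. -/
def HkxStmt : Prop := ∀ (ℓ : ℕ) [Fact ℓ.Prime] (F : Type) [Field F], GoodF ℓ F → ∀ (G : Type)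
  [Group G] [Finite G] (e : G → F) (V : Subgroup G) (γ : G → F), Ld ℓ e V γ → ¬ ℓ ∣ ix V γ →
  ∀ a k : ℕ, 0 < k → 0 < a → Monoid.exponent V = ℓ ^ a → (∃ y, Rk ℓ a 1 V γ y) → Hk ℓ k V γ →
  ix V γ * Nat.card V ≤ ℓ ^ (2 * k) * {u | Rg V γ u}.ncard

/-- HGT: the heights are smaller than `k`.

Proof.  Suppose `vv u χ/ℓ ^ k ∈ RM M` for one regular `u`.  By DCG (`ix` is not `0` in `F`,
`K9.InxStmt`), `vv u χ ρ` and `vv u' χ ρ` are units of `RM M` for all regular `u'`,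
`ρ = |G| c/(|C(V)| χ(1))`, so `vv u' χ/ℓ ^ k ∈ RM M` for all regular `u'`, and `vv u' χ ≠ 0`.  For a
regular `u'` and `ζ` of order `ℓ ^ a` INR gives integers `m_i` with
`vv (u' ^ j) χ = ∑ m_i ζ ^ (i j)` for all `j` prime to `ℓ` (DPW: the local block and the degree are
the same).  NRM (`s = 0`, `h = k`): `∑_j |vv (u' ^ j) χ|² ≥ φ(ℓ ^ a) ℓ ^ (2 k)`, `j < ℓ ^ a` prime to
`ℓ`.  Sum over all regular `u'` (`u' ↦ u' ^ j` is a permutation of them): `∑_u |vv u χ|² ≥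
ℓ ^ (2 k) n ≥ ix |V|`, `n` the number of the regular elements, against SBS. -/
def HgtStmt : Prop := ∀ (ℓ : ℕ) [Fact ℓ.Prime] (M : Ideal (integralClosure ℤ ℂ)) [M.IsMaximal],
  (ℓ : integralClosure ℤ ℂ) ∈ M → ℓ ≠ 2 → ∀ (G : Type) [Group G] [Finite G] (e : G → FF M)
  (V : Subgroup G) (γ : G → FF M) (b : G → G → FF M) (d : G → ℕ) (c : ℕ) (ε : G → ℤ),
  Dat M ℓ e V γ b d c ε → ∀ a k : ℕ, 0 < a → Monoid.exponent V = ℓ ^ a →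
  ix V γ * Nat.card V ≤ ℓ ^ (2 * k) * {u | Rg V γ u}.ncard →
  ∀ χ ∈ IrrE M e, ∀ u, Rg V γ u → vv M b d u χ / ℓ ^ k ∉ RM M

/-! ## 11. Averages -/

/-- AVB: the average over a coset of `V ^ (ℓ ^ k)`.

Proof.  `f(v) = ∑ a_lam lam(v)` with `a_lam ∈ RM M` (RVA, Fourier inversion).  `f(v ^ N) = f(v)` gives
`a_(lam ^ N) = a_lam` (uniqueness of the coefficients; `lam ^ N (v) = lam(v ^ N)`).  The average of
`lam(y w)` over `w ∈ W` is `lam(y)` if `lam` is trivial on `W`, that is if `lam ^ (ℓ ^ k) = 1`, and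
`0` otherwise.  So the average `A` of `f` is the sum of the `a_lam lam(y)` over these `lam`, in `RM M`,
and `f(y) - A` is the sum over the `lam` of order `ℓ ^ m`, `m > k`.  The powers of `N` act on the
elements `v` as all the `v ↦ v ^ j`, `j = 1` modulo `ℓ` (`GS.gen`), so `a_(lam ^ j) = a_lam` for these
`j`, and the sum over the `ℓ ^ (m-1)` characters `lam ^ j`, `j < ℓ ^ m`, `j = 1` modulo `ℓ`, is
`a_lam ∑_j η ^ j`, `η = lam(y)`, which is `a_lam η ℓ ^ (m-1)` if `η ^ ℓ = 1` and `0` otherwise.  It is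
divisible by `ℓ ^ k`. -/
def AvbStmt : Prop := ∀ (ℓ : ℕ) [Fact ℓ.Prime] (M : Ideal (integralClosure ℤ ℂ)) [M.IsMaximal],
  (ℓ : integralClosure ℤ ℂ) ∈ M → ∀ (G : Type) [Group G] [Finite G] (N : ℕ), GS G ℓ N →
  ∀ V : Subgroup G, IsPGroup ℓ V → (∀ a ∈ V, ∀ b ∈ V, a * b = b * a) → ∀ f : G → ℂ, Rv M V f →
  (∀ v ∈ V, f (v ^ N) = f v) → ∀ (k : ℕ) (W : Subgroup G), W = Uw (ℓ ^ k) V → ∀ y ∈ V,
  ((Nat.card W : ℂ)⁻¹ * ∑ᶠ w : W, f (y * w)) ∈ RM M ∧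
  (f y - (Nat.card W : ℂ)⁻¹ * ∑ᶠ w : W, f (y * w)) / ℓ ^ k ∈ RM M

/-- AV1: the averages for a fixed character.

Proof.  `f` from COH.  The elements `y ^ j w` are regular (RKX), so `av (y ^ j) χ` is the average of `f`
over `y ^ j W`.  (i) `GS.gen`: `k'` with `(v ^ j) ^ N ^ k' = v ^ j'` for all `ℓ`-elements `v`.
`w ↦ w ^ N ^ k'` is a bijection of `W` and `f(v ^ N ^ k') = f(v)`.  (ii) AVB.  (iii) If the average is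
`0` then `f(y ^ j)/ℓ ^ k = ± vv (y ^ j) χ/ℓ ^ k ∈ RM M` by AVB, against the hypothesis. -/
def Av1Stmt : Prop := ∀ (ℓ : ℕ) [Fact ℓ.Prime] (M : Ideal (integralClosure ℤ ℂ)) [M.IsMaximal],
  (ℓ : integralClosure ℤ ℂ) ∈ M → ℓ ≠ 2 → ∀ (G : Type) [Group G] [Finite G] (N : ℕ), GS G ℓ N →
  ∀ (e : G → FF M) (V : Subgroup G) (γ : G → FF M) (b : G → G → FF M) (d : G → ℕ) (c : ℕ)
  (ε : G → ℤ), Dat M ℓ e V γ b d c ε → ∀ a k : ℕ, 0 < k → k ≤ a → Monoid.exponent V = ℓ ^ a →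
  ∀ y, Rk ℓ a k V γ y → ∀ χ ∈ IrrE M e, (∀ g, χ (g ^ N) = χ g) → ∀ j : ℕ, ¬ ℓ ∣ j →
  (∀ j' : ℕ, j ≡ j' [MOD ℓ] →
    av M b d ε (Uw (ℓ ^ k) V) (y ^ j) χ = av M b d ε (Uw (ℓ ^ k) V) (y ^ j') χ) ∧
  av M b d ε (Uw (ℓ ^ k) V) (y ^ j) χ ∈ RM M ∧
  ((∀ u, Rg V γ u → vv M b d u χ / ℓ ^ k ∉ RM M) →
    av M b d ε (Uw (ℓ ^ k) V) (y ^ j) χ ≠ 0)

/-- AV2: the averages for a fixed character are in the field of the `ℓ`-th roots of unity.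

Proof.  `w ↦ w ^ j` is a bijection of `W`, so `|W| av (y ^ j) χ = ∑_w ε((y w) ^ j) vv((y w) ^ j) χ
= ∑_w ε(y w) vv((y w) ^ j) χ` (RKX, DPW).  For `u = y w`: INR with `q = ℓ ^ a` (`b (u ^ j) = b u`,
`d (u ^ j) = d u`, `C(u ^ j) = C(u)`): `vv(u ^ j) χ = ∑_{i < ℓ ^ a} m_{w,i} ζ ^ (i j)`, and by
`T2.VjcStmt` this depends only on `j` modulo `ℓ`.  Average over the `ℓ ^ (a-1)` numbers `j + ℓ j'`,
`j' < ℓ ^ (a-1)`: only the `i` divisible by `ℓ ^ (a-1)` remain,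
`vv(u ^ j) χ = ∑_{i < ℓ} m_{w, i ℓ ^ (a-1)} ζ ^ (ℓ ^ (a-1) i j)`.  Put
`m_i = ∑_w ε(y w) m_{w, i ℓ ^ (a-1)}`. -/
def Av2Stmt : Prop := ∀ (ℓ : ℕ) [Fact ℓ.Prime] (M : Ideal (integralClosure ℤ ℂ)) [M.IsMaximal],
  (ℓ : integralClosure ℤ ℂ) ∈ M → ℓ ≠ 2 → ∀ (G : Type) [Group G] [Finite G] (N : ℕ), GS G ℓ N →
  ∀ (e : G → FF M) (V : Subgroup G) (γ : G → FF M) (b : G → G → FF M) (d : G → ℕ) (c : ℕ)
  (ε : G → ℤ), Dat M ℓ e V γ b d c ε → ∀ a k : ℕ, 0 < k → k ≤ a → Monoid.exponent V = ℓ ^ a →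
  ∀ y, Rk ℓ a k V γ y → ∀ χ ∈ IrrE M e, (∀ g, χ (g ^ N) = χ g) → ∀ ζ : ℂ,
  IsPrimitiveRoot ζ (ℓ ^ a) → ∃ m : ℕ → ℤ, ∀ j : ℕ, ¬ ℓ ∣ j →
    Nat.card (Uw (ℓ ^ k) V) * av M b d ε (Uw (ℓ ^ k) V) (y ^ j) χ =
      ∑ i ∈ Finset.range ℓ, (m i : ℂ) * (ζ ^ ℓ ^ (a - 1)) ^ (i * j)

/-- AVO: Bessel's inequality for the averages.

Proof.  `W = V ^ (ℓ ^ k)`; for `i < ℓ ^ (k-1)` let `j_i = j + ℓ i` and `v_i = (av (y ^ (j_i)) χ)_χ` on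
`Irr G`.  By DOR the inner product of `vv(y ^ (j_i) w)` and `vv(y ^ (j_i') w')` is `0` if the two
elements are not conjugate under `T`; if they are, then they are equal and `i = i'`, `w = w'` by RKX
(iii), (iv) (the numbers `j_i` are different modulo `ℓ ^ k`).  So the `v_i` are orthogonal of norm
squared `|W|⁻² |W| |V| = |V|/|W|`.  BES with `c = |V|/|W|` and `s χ = conj (av (y ^ j) χ)` for the fixed
`χ ∈ e`, `0` otherwise: `v_i χ = av (y ^ j) χ` there (AV1), so with the sum `x` of the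
`|av (y ^ j) χ|²` over the fixed `χ ∈ e`: `ℓ ^ (k-1) x² ≤ (|V|/|W|) x`. -/
def AvoStmt : Prop := ∀ (ℓ : ℕ) [Fact ℓ.Prime] (M : Ideal (integralClosure ℤ ℂ)) [M.IsMaximal],
  (ℓ : integralClosure ℤ ℂ) ∈ M → ℓ ≠ 2 → ∀ (G : Type) [Group G] [Finite G] (N : ℕ), GS G ℓ N →
  ∀ (e : G → FF M) (V : Subgroup G) (γ : G → FF M) (b : G → G → FF M) (d : G → ℕ) (c : ℕ)
  (ε : G → ℤ), Dat M ℓ e V γ b d c ε → ∀ a k : ℕ, 0 < k → k ≤ a → Monoid.exponent V = ℓ ^ a →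
  ∀ y, Rk ℓ a k V γ y → ∀ j : ℕ, ¬ ℓ ∣ j →
    (ℓ : ℝ) ^ (k - 1) * Nat.card (Uw (ℓ ^ k) V) *
      ∑ᶠ χ ∈ {χ | χ ∈ IrrE M e ∧ ∀ g, χ (g ^ N) = χ g},
        Complex.normSq (av M b d ε (Uw (ℓ ^ k) V) (y ^ j) χ) ≤ Nat.card V

/-- BN8: the number of the fixed characters.

Proof.  Let `R` be the set of the fixed characters in `e`, `ζ` of order `ℓ ^ a`,
`ζ' = ζ ^ (ℓ ^ (a-1))` of order `ℓ`, `|W| = ℓ ^ s`.  For `χ ∈ R` AV2 and AV1 show that NRM (`a = 1`,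
`ζ'`, `s`, `h = 0`) applies: `∑_{0 < j < ℓ} |av (y ^ j) χ|² ≥ ℓ - 1`.  Sum over `χ ∈ R` and use AVO for
each `j`: `(ℓ - 1) |R| ≤ (ℓ - 1) |V|/(|W| ℓ ^ (k-1))`. -/
def Bn8Stmt : Prop := ∀ (ℓ : ℕ) [Fact ℓ.Prime] (M : Ideal (integralClosure ℤ ℂ)) [M.IsMaximal],
  (ℓ : integralClosure ℤ ℂ) ∈ M → ℓ ≠ 2 → ∀ (G : Type) [Group G] [Finite G] (N : ℕ), GS G ℓ N →
  ∀ (e : G → FF M) (V : Subgroup G) (γ : G → FF M) (b : G → G → FF M) (d : G → ℕ) (c : ℕ)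
  (ε : G → ℤ), Dat M ℓ e V γ b d c ε → ∀ a k : ℕ, 0 < k → k ≤ a → Monoid.exponent V = ℓ ^ a →
  ∀ y, Rk ℓ a k V γ y → (∀ χ ∈ IrrE M e, ∀ u, Rg V γ u → vv M b d u χ / ℓ ^ k ∉ RM M) →
    {χ | χ ∈ IrrE M e ∧ ∀ g, χ (g ^ N) = χ g}.ncard * ℓ ^ (k - 1) *
      Nat.card (Uw (ℓ ^ k) V) ≤ Nat.card V

/-- LB8: the bound for the number of modular characters.

Proof.  `N` from `T2.Pr2Stmt`, the data from DAT.  `T2.FxsStmt` with `T2.StgStmt`: `ln e ≤ |R|`, `R` the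
set of the fixed characters in `e`.  HGT: the hypothesis of BN8.  So
`ln e ℓ ^ (k-1) |W| ≤ |V| ≤ ℓ ^ (a + k - 1) |W|`. -/
def Lb8Stmt : Prop := ∀ (ℓ : ℕ) [Fact ℓ.Prime] (M : Ideal (integralClosure ℤ ℂ)) [M.IsMaximal],
  (ℓ : integralClosure ℤ ℂ) ∈ M → ℓ ≠ 2 → ∀ (G : Type) [Group G] [Finite G] (e : G → FF M)
  (V : Subgroup G) (γ : G → FF M), Ld ℓ e V γ → ∀ a k : ℕ, 0 < k → k ≤ a →
  Monoid.exponent V = ℓ ^ a → (∃ y, Rk ℓ a k V γ y) →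
  ix V γ * Nat.card V ≤ ℓ ^ (2 * k) * {u | Rg V γ u}.ncard →
  Nat.card V ≤ ℓ ^ (a + k - 1) * Nat.card (Uw (ℓ ^ k) V) → ln e ≤ ℓ ^ a

end Pool.Agent.PP.T8
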